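import Pool.Agent.R217.LL.Pairs

set_option autoImplicit false

open MeasureTheory Filter Topology
open scoped ContDiff ENNReal

namespace Pool.Agent.R217.LL

lemma map_dil {t : ℝ} (ht : 1 ≤ t) :
    Measure.map (fun x : E3 => t • x) volume = ENNReal.ofReal ((t ^ 3)⁻¹) • (volume : Measure E3) := by
  rw [Measure.map_addHaar_smul _ (by positivity)]
  simp only [finrank_euclideanSpace, Fintype.card_fin]
  rw [abs_of_nonneg (by positivity)]

lemma map_dil_le {t : ℝ} (ht : 1 ≤ t) :
    Measure.map (fun x : E3 => t • x) volume ≤ (volume : Measure E3) := by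
  rw [map_dil ht]
  rw [Measure.le_iff]
  intro s _
  rw [Measure.smul_apply, smul_eq_mul]
  have h1 : ENNReal.ofReal ((t ^ 3)⁻¹) ≤ 1 := by
    rw [ENNReal.ofReal_le_one]
    apply inv_le_one_of_one_le₀
    exact one_le_pow₀ ht
  calc ENNReal.ofReal ((t ^ 3)⁻¹) * volume s ≤ 1 * volume s := by gcongr
    _ = volume s := one_mul _

lemma measurable_dil (t : ℝ) : Measurable (fun x : E3 => t • x) := measurable_const_smul t

lemma aesm_map {F : Type*} [NormedAddCommGroup F] {f : E3 → F} (hf : AEStronglyMeasurable f volume)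
    {t : ℝ} (ht : 1 ≤ t) :
    AEStronglyMeasurable f (Measure.map (fun x : E3 => t • x) volume) :=
  hf.mono_measure (map_dil_le ht)

lemma aesm_dil {F : Type*} [NormedAddCommGroup F] {f : E3 → F} (hf : AEStronglyMeasurable f volume)
    {t : ℝ} (ht : 1 ≤ t) : AEStronglyMeasurable (fun x => f (t • x)) volume :=
  (aesm_map hf ht).comp_measurable (measurable_dil t)

lemma eLpNorm_dil_le {F : Type*} [NormedAddCommGroup F] {f : E3 → F}
    (hf : AEStronglyMeasurable f volume) (p : ℝ≥0∞) {t : ℝ} (ht : 1 ≤ t) :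
    eLpNorm (fun x => f (t • x)) p volume ≤ eLpNorm f p volume := by
  have h1 := eLpNorm_map_measure (p := p) (aesm_map hf ht) (measurable_dil t).aemeasurable
  have h2 : eLpNorm (fun x => f (t • x)) p volume =
      eLpNorm f p (Measure.map (fun x : E3 => t • x) volume) := h1.symm
  rw [h2]
  exact eLpNorm_mono_measure f (map_dil_le ht)

lemma memLp_dil {F : Type*} [NormedAddCommGroup F] {f : E3 → F} {p : ℝ≥0∞}
    (hf : MemLp f p volume) {t : ℝ} (ht : 1 ≤ t) : MemLp (fun x => f (t • x)) p volume :=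
  ⟨aesm_dil hf.1 ht, (eLpNorm_dil_le hf.1 p ht).trans_lt hf.2⟩

/-- `Ω` is star-shaped with respect to the origin. -/
def Star (Ω : Set E3) : Prop := ∀ t : ℝ, 1 ≤ t → ∀ x : E3, t • x ∈ Ω → x ∈ Ω

lemma IsT.dil {Ω : Set E3} (hs : Star Ω) {φ : E3 → ℝ} (h : IsT Ω φ) {t : ℝ} (ht : 1 ≤ t) :
    IsT Ω (fun x => φ (t • x)) := by
  have ht0 : t ≠ 0 := by positivity
  let e : E3 ≃ₜ E3 := Homeomorph.smulOfNeZero t ht0
  refine ⟨h.1.comp (contDiff_const_smul t), ?_, ?_⟩
  · exact h.2.1.comp_homeomorph e
  · intro x hx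
    apply hs t ht x
    apply h.2.2
    have h1 : tsupport (fun x => φ (t • x)) ⊆ e ⁻¹' (tsupport φ) := by
      apply closure_minimal
      · intro y hy
        exact subset_tsupport φ hy
      · exact (isClosed_tsupport φ).preimage e.continuous
    exact h1 hx

lemma gradient_dil {φ : E3 → ℝ} (h : Differentiable ℝ φ) (t : ℝ) (x : E3) :
    gradient (fun x => φ (t • x)) x = t • gradient φ (t • x) := by
  have h1 : HasFDerivAt (fun x : E3 => t • x) (t • ContinuousLinearMap.id ℝ E3) x :=
    (ContinuousLinearMap.id ℝ E3).hasFDerivAt.const_smul t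
  have h2 := (h (t • x)).hasFDerivAt.comp x h1
  have h3 : fderiv ℝ (fun x => φ (t • x)) x = t • fderiv ℝ φ (t • x) := by
    have h4 : HasFDerivAt (fun x => φ (t • x)) _ x := h2
    rw [h4.fderiv]
    ext v
    simp
  unfold gradient
  rw [h3, map_smul]

lemma HP.dil {Ω : Set E3} (hs : Star Ω) {u : E3 → ℝ} {G : E3 → E3} (h : HP Ω u G) {t : ℝ}
    (ht : 1 ≤ t) : HP Ω (fun x => u (t • x)) (fun x => t • G (t • x)) := by
  obtain ⟨φ, hφ, h1, h2⟩ := h.app
  refine ⟨memLp_dil h.mu ht, (memLp_dil h.mG ht).const_smul t, fun n x => φ n (t • x),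
    fun n => (hφ n).dil hs ht, ?_, ?_⟩
  · apply tendsto_of_tendsto_of_tendsto_of_le_of_le tendsto_const_nhds h1
    · intro n; exact zero_le
    · intro n
      exact eLpNorm_dil_le (f := fun x => φ n x - u x) (((hφ n).memLp 2).sub h.mu).1 2 ht
  · have h3 : Tendsto (fun n => ENNReal.ofReal t * eLpNorm (fun x => gradient (φ n) x - G x) 2
        volume) atTop (𝓝 0) := by
      have := ENNReal.Tendsto.const_mul h2 (Or.inr (ENNReal.ofReal_ne_top (r := t)))
      simpa using this
    apply tendsto_of_tendsto_of_tendsto_of_le_of_le tendsto_const_nhds h3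
    · intro n; exact zero_le
    · intro n
      have e : (fun x => gradient (fun x => φ n (t • x)) x - t • G (t • x)) =
          t • (fun x => (fun x => gradient (φ n) x - G x) (t • x)) := by
        funext x
        rw [gradient_dil (hφ n).differentiable]
        simp only [Pi.smul_apply, smul_sub]
      simp only [e]
      rw [eLpNorm_const_smul]
      have e2 : ‖t‖ₑ = ENNReal.ofReal t := by
        rw [← ofReal_norm, Real.norm_of_nonneg (by linarith)]
      rw [e2]
      gcongr
      exact eLpNorm_dil_le (f := fun x => gradient (φ n) x - G x)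
        (((hφ n).memLp_grad 2).sub h.mG).1 2 ht

/-- Difference quotient bound for test functions. -/
lemma diff_test {Ω : Set E3} {R : ℝ} (hR : 0 ≤ R) (hΩ : ∀ x ∈ Ω, ‖x‖ ≤ R) {φ : E3 → ℝ}
    (h : IsT Ω φ) {t : ℝ} (ht : 1 ≤ t) :
    eLpNorm (fun x => φ (t • x) - φ x) 2 volume ≤
      ENNReal.ofReal ((t - 1) * R) * eLpNorm (gradient φ) 2 volume := by
  have hg := continuous_gradient h
  -- pointwise bound
  have hpt : ∀ x : E3, (φ (t • x) - φ x) ^ 2 ≤
      (t - 1) * ∫ r in (1:ℝ)..t, R ^ 2 * ‖gradient φ (r • x)‖ ^ 2 := by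
    intro x
    have hder : ∀ r : ℝ, HasDerivAt (fun r : ℝ => φ (r • x)) (fderiv ℝ φ (r • x) x) r := by
      intro r
      have h1 : HasDerivAt (fun r : ℝ => r • x) x r := by
        simpa using (hasDerivAt_id r).smul_const x
      exact (h.differentiable (r • x)).hasFDerivAt.comp_hasDerivAt r h1
    have hcont : Continuous fun r : ℝ => fderiv ℝ φ (r • x) x := by
      have h1 : ContDiff ℝ 1 φ := h.1.of_le (by exact_mod_cast le_top)
      have h2 : Continuous fun x => fderiv ℝ φ x := h1.continuous_fderiv (by norm_num)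
      fun_prop
    have hint : ∫ r in (1:ℝ)..t, fderiv ℝ φ (r • x) x = φ (t • x) - φ x := by
      rw [intervalIntegral.integral_eq_sub_of_hasDerivAt (fun r _ => hder r)
        (hcont.intervalIntegrable _ _), one_smul]
    have hb : ∀ r : ℝ, 1 ≤ r → (fderiv ℝ φ (r • x) x) ^ 2 ≤ R ^ 2 * ‖gradient φ (r • x)‖ ^ 2 := by
      intro r hr
      by_cases hx : r • x ∈ tsupport φ
      · have h1 : ‖r • x‖ ≤ R := hΩ _ (h.2.2 hx)
        rw [norm_smul, Real.norm_of_nonneg (by linarith)] at h1
        have h2 : ‖x‖ ≤ R := by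
          have := norm_nonneg x
          nlinarith
        have h3 : |fderiv ℝ φ (r • x) x| ≤ ‖fderiv ℝ φ (r • x)‖ * ‖x‖ := by
          rw [← Real.norm_eq_abs]; exact ContinuousLinearMap.le_opNorm _ _
        rw [norm_gradient, ← sq_abs (fderiv ℝ φ (r • x) x), ← mul_pow]
        apply pow_le_pow_left₀ (abs_nonneg _)
        calc _ ≤ ‖fderiv ℝ φ (r • x)‖ * ‖x‖ := h3
          _ ≤ ‖fderiv ℝ φ (r • x)‖ * R := by gcongr
          _ = _ := mul_comm _ _
      · have h1 : fderiv ℝ φ (r • x) = 0 := by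
          by_contra hne
          exact hx (support_fderiv_subset ℝ hne)
        rw [h1]
        simp
        positivity
    -- Cauchy-Schwarz
    have hcs : (∫ r in (1:ℝ)..t, fderiv ℝ φ (r • x) x) ^ 2 ≤
        (t - 1) * ∫ r in (1:ℝ)..t, (fderiv ℝ φ (r • x) x) ^ 2 := by
      rcases eq_or_lt_of_le ht with h1 | h1
      · rw [← h1]; simp
      · set m : ℝ := (∫ r in (1:ℝ)..t, fderiv ℝ φ (r • x) x) / (t - 1) with hm
        have h2 : 0 ≤ ∫ r in (1:ℝ)..t, (fderiv ℝ φ (r • x) x - m) ^ 2 :=
          intervalIntegral.integral_nonneg ht fun r _ => sq_nonneg _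
        have h3 : ∫ r in (1:ℝ)..t, (fderiv ℝ φ (r • x) x - m) ^ 2 =
            (∫ r in (1:ℝ)..t, (fderiv ℝ φ (r • x) x) ^ 2) -
              2 * m * (∫ r in (1:ℝ)..t, fderiv ℝ φ (r • x) x) + m ^ 2 * (t - 1) := by
          have e : ∀ r : ℝ, (fderiv ℝ φ (r • x) x - m) ^ 2 =
              (fderiv ℝ φ (r • x) x) ^ 2 - 2 * m * (fderiv ℝ φ (r • x) x) + m ^ 2 := by
            intro r; ring
          simp_rw [e]
          rw [intervalIntegral.integral_add, intervalIntegral.integral_sub,
            intervalIntegral.integral_const_mul]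
          · simp; ring
          · exact (hcont.pow 2).intervalIntegrable _ _
          · exact (continuous_const.mul hcont).intervalIntegrable _ _
          · exact ((hcont.pow 2).sub (continuous_const.mul hcont)).intervalIntegrable _ _
          · exact continuous_const.intervalIntegrable _ _
        rw [h3] at h2
        have h4 : (∫ r in (1:ℝ)..t, fderiv ℝ φ (r • x) x) = m * (t - 1) := by
          rw [hm]; field_simp [(sub_pos.2 h1).ne']
        rw [h4] at h2 ⊢
        have h5 : 0 < t - 1 := sub_pos.2 h1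
        nlinarith
    rw [← hint]
    refine hcs.trans ?_
    apply mul_le_mul_of_nonneg_left _ (by linarith)
    apply intervalIntegral.integral_mono_on ht
    · exact (hcont.pow 2).intervalIntegrable _ _
    · have : Continuous fun r : ℝ => R ^ 2 * ‖gradient φ (r • x)‖ ^ 2 := by fun_prop
      exact this.intervalIntegrable _ _
    · intro r hr
      exact hb r hr.1
  -- integrate
  have hmain : ∫⁻ x : E3, ‖φ (t • x) - φ x‖ₑ ^ (2:ℝ) ≤
      ENNReal.ofReal (((t - 1) * R) ^ 2) * ∫⁻ x : E3, ‖gradient φ x‖ₑ ^ (2:ℝ) := by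
    have e1 : ∀ x : E3, ‖φ (t • x) - φ x‖ₑ ^ (2:ℝ) = ENNReal.ofReal ((φ (t • x) - φ x) ^ 2) := by
      intro x
      rw [← ofReal_norm, ENNReal.ofReal_rpow_of_nonneg (norm_nonneg _) (by norm_num)]
      congr 1
      simp
    have e2 : ∀ y : E3, ‖gradient φ y‖ₑ ^ (2:ℝ) = ENNReal.ofReal (‖gradient φ y‖ ^ 2) := by
      intro y
      rw [← ofReal_norm, ENNReal.ofReal_rpow_of_nonneg (norm_nonneg _) (by norm_num)]
      congr 1
      simp
    simp_rw [e1, e2]
    calc ∫⁻ x : E3, ENNReal.ofReal ((φ (t • x) - φ x) ^ 2)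
        ≤ ∫⁻ x : E3, ENNReal.ofReal (t - 1) *
            ∫⁻ r in Set.Ioc (1:ℝ) t, ENNReal.ofReal (R ^ 2 * ‖gradient φ (r • x)‖ ^ 2) := by
          apply lintegral_mono
          intro x
          simp only
          refine (ENNReal.ofReal_le_ofReal (hpt x)).trans ?_
          rw [ENNReal.ofReal_mul (by linarith), intervalIntegral.integral_of_le ht,
            ofReal_integral_eq_lintegral_ofReal]
          · have : Continuous fun r : ℝ => R ^ 2 * ‖gradient φ (r • x)‖ ^ 2 := by fun_prop
            exact (this.integrableOn_Icc (a := 1) (b := t)).mono_set Set.Ioc_subset_Icc_self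
          · exact Eventually.of_forall fun r => by positivity
      _ = ENNReal.ofReal (t - 1) * ∫⁻ x : E3,
            ∫⁻ r in Set.Ioc (1:ℝ) t, ENNReal.ofReal (R ^ 2 * ‖gradient φ (r • x)‖ ^ 2) := by
          rw [lintegral_const_mul']
          exact ENNReal.ofReal_ne_top
      _ = ENNReal.ofReal (t - 1) * ∫⁻ r in Set.Ioc (1:ℝ) t, ∫⁻ x : E3,
            ENNReal.ofReal (R ^ 2 * ‖gradient φ (r • x)‖ ^ 2) := by
          rw [lintegral_lintegral_swap]
          apply Measurable.aemeasurable
          have : Continuous fun z : E3 × ℝ => R ^ 2 * ‖gradient φ (z.2 • z.1)‖ ^ 2 := by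
            fun_prop
          exact this.measurable.ennreal_ofReal
      _ ≤ ENNReal.ofReal (t - 1) * ∫⁻ r in Set.Ioc (1:ℝ) t, ENNReal.ofReal (R ^ 2) *
            ∫⁻ x : E3, ENNReal.ofReal (‖gradient φ x‖ ^ 2) := by
          refine mul_le_mul' le_rfl ?_
          apply setLIntegral_mono' measurableSet_Ioc
          intro r hr
          have h1 : ∀ x : E3, ENNReal.ofReal (R ^ 2 * ‖gradient φ (r • x)‖ ^ 2) =
              ENNReal.ofReal (R ^ 2) * ENNReal.ofReal (‖gradient φ (r • x)‖ ^ 2) := fun x =>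
            ENNReal.ofReal_mul (by positivity)
          simp_rw [h1]
          rw [lintegral_const_mul' _ _ ENNReal.ofReal_ne_top]
          refine mul_le_mul' le_rfl ?_
          have hme : Measurable fun y : E3 => ENNReal.ofReal (‖gradient φ y‖ ^ 2) := by
            have : Continuous fun y : E3 => ‖gradient φ y‖ ^ 2 := by fun_prop
            exact this.measurable.ennreal_ofReal
          have h2 := lintegral_map (μ := (volume : Measure E3)) hme (measurable_dil r)
          rw [← h2]
          exact lintegral_mono' (map_dil_le hr.1.le) le_rfl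
      _ = ENNReal.ofReal (((t - 1) * R) ^ 2) * ∫⁻ x : E3, ENNReal.ofReal (‖gradient φ x‖ ^ 2) := by
          rw [lintegral_const]
          simp only [MeasurableSet.univ, Measure.restrict_apply, Set.univ_inter, Real.volume_Ioc]
          rw [mul_pow, ENNReal.ofReal_mul (by positivity), pow_two (t - 1),
            ENNReal.ofReal_mul (by linarith)]
          ring
  rw [eLpNorm_eq_lintegral_rpow_enorm_toReal (by norm_num) (by norm_num),
    eLpNorm_eq_lintegral_rpow_enorm_toReal (by norm_num) (by norm_num)]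
  simp only [ENNReal.toReal_ofNat]
  have h9 : ENNReal.ofReal ((t - 1) * R) = (ENNReal.ofReal (((t - 1) * R) ^ 2)) ^ (1 / (2:ℝ)) := by
    rw [ENNReal.ofReal_rpow_of_nonneg (by positivity) (by norm_num)]
    congr 1
    rw [← Real.sqrt_eq_rpow, Real.sqrt_sq]
    have : 0 ≤ t - 1 := by linarith
    positivity
  rw [h9, ← ENNReal.mul_rpow_of_nonneg _ _ (by norm_num)]
  exact ENNReal.rpow_le_rpow hmain (by norm_num)

lemma HP.diff {Ω : Set E3} {R : ℝ} (hR : 0 ≤ R) (hΩ : ∀ x ∈ Ω, ‖x‖ ≤ R)
    {u : E3 → ℝ} {G : E3 → E3} (h : HP Ω u G) {t : ℝ} (ht : 1 ≤ t) :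
    eLpNorm (fun x => u (t • x) - u x) 2 volume ≤
      ENNReal.ofReal ((t - 1) * R) * eLpNorm G 2 volume := by
  obtain ⟨φ, hφ, h1, h2⟩ := h.app
  have hb : ∀ n, eLpNorm (fun x => u (t • x) - u x) 2 volume ≤
      2 * eLpNorm (fun x => φ n x - u x) 2 volume + ENNReal.ofReal ((t - 1) * R) *
        (eLpNorm (fun x => gradient (φ n) x - G x) 2 volume + eLpNorm G 2 volume) := by
    intro n
    have m1 : MemLp (fun x => φ n x - u x) 2 volume := ((hφ n).memLp 2).sub h.mu
    have m2 : MemLp (fun x => φ n (t • x) - u (t • x)) 2 volume := memLp_dil m1 ht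
    have m3 : MemLp (fun x => φ n (t • x) - φ n x) 2 volume :=
      (memLp_dil ((hφ n).memLp 2) ht).sub ((hφ n).memLp 2)
    have e1 : (fun x => u (t • x) - u x) =
        ((fun x => φ n (t • x) - φ n x) + (fun x => φ n x - u x)) -
          (fun x => φ n (t • x) - u (t • x)) := by
      funext x; simp only [Pi.add_apply, Pi.sub_apply]; ring
    rw [e1]
    refine (eLpNorm_sub_le (m3.add m1).1 m2.1 (by norm_num)).trans ?_
    have b1 := eLpNorm_add_le (p := 2) m3.1 m1.1 (by norm_num)
    have b2 := eLpNorm_dil_le (p := 2) m1.1 ht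
    have b3 := diff_test hR hΩ (hφ n) ht
    have b4 : eLpNorm (gradient (φ n)) 2 volume ≤
        eLpNorm (fun x => gradient (φ n) x - G x) 2 volume + eLpNorm G 2 volume := by
      have := eLpNorm_add_le (μ := (volume : Measure E3)) (p := 2)
        (f := fun x => gradient (φ n) x - G x) (g := G)
        (((hφ n).memLp_grad 2).sub h.mG).1 h.mG.1 (by norm_num)
      have e : gradient (φ n) = (fun x => gradient (φ n) x - G x) + G := by
        funext x
        simp only [Pi.add_apply, sub_add_cancel]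
      exact (congrArg (fun f => eLpNorm f 2 volume) e).trans_le this
    calc _ ≤ (eLpNorm (fun x => φ n (t • x) - φ n x) 2 volume +
          eLpNorm (fun x => φ n x - u x) 2 volume) + eLpNorm (fun x => φ n x - u x) 2 volume := by
          gcongr
      _ ≤ (ENNReal.ofReal ((t - 1) * R) *
        (eLpNorm (fun x => gradient (φ n) x - G x) 2 volume + eLpNorm G 2 volume) +
          eLpNorm (fun x => φ n x - u x) 2 volume) + eLpNorm (fun x => φ n x - u x) 2 volume := by
          gcongr
          exact b3.trans (by gcongr)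
      _ = _ := by ring
  have hlim : Tendsto (fun n => 2 * eLpNorm (fun x => φ n x - u x) 2 volume +
      ENNReal.ofReal ((t - 1) * R) *
        (eLpNorm (fun x => gradient (φ n) x - G x) 2 volume + eLpNorm G 2 volume)) atTop
      (𝓝 (2 * 0 + ENNReal.ofReal ((t - 1) * R) * (0 + eLpNorm G 2 volume))) := by
    apply Tendsto.add
    · exact ENNReal.Tendsto.const_mul h1 (Or.inr (by norm_num))
    · exact ENNReal.Tendsto.const_mul (h2.add tendsto_const_nhds)
        (Or.inr ENNReal.ofReal_ne_top)
  rw [mul_zero, zero_add, zero_add] at hlim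
  exact ge_of_tendsto' hlim hb

end Pool.Agent.R217.LL
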