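import Pool.Agent.R217.LL.Main

set_option autoImplicit false

open MeasureTheory Filter Topology
open scoped ContDiff ENNReal

namespace Pool.Agent.R217.LL

variable {Ω : Set E3} {u : E3 → ℝ} {G : E3 → E3}

lemma int_dil (f : E3 → ℝ) {t : ℝ} (ht : 1 ≤ t) :
    ∫ x : E3, f (t • x) = (t ^ 3)⁻¹ * ∫ x, f x := by
  rw [Measure.integral_comp_smul]
  simp only [finrank_euclideanSpace, Fintype.card_fin, smul_eq_mul]
  rw [abs_of_nonneg (by positivity)]

lemma one_sided (x y : ℝ) (hx : 0 ≤ x) (hy : 0 ≤ y) :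
    x ^ 5 + 5 * x ^ 4 * (y - x) ≤ y ^ 5 := by
  have h : y ^ 5 - x ^ 5 - 5 * x ^ 4 * (y - x) =
      (y - x) ^ 2 * (y ^ 3 + 2 * x * y ^ 2 + 3 * x ^ 2 * y + 4 * x ^ 3) := by ring
  have h2 : 0 ≤ (y - x) ^ 2 * (y ^ 3 + 2 * x * y ^ 2 + 3 * x ^ 2 * y + 4 * x ^ 3) := by positivity
  linarith

/-- The bound for the remainder of the Hardy-Sobolev term. -/
lemma T_bound {v : E3 → ℝ} (hv : MemLp v 6 volume) {w : E3 → ℝ} {H : E3 → E3}
    (hw : HP Ω w H) {K δ : ℝ} (hδ : 0 ≤ δ)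
    (hK : eLpNorm ({x | K ≤ ‖v x ^ 2‖}.indicator fun x => v x ^ 2) 3 volume ≤ ENNReal.ofReal δ)
    {b : ℝ} (hb : 0 ≤ b) (hwb : eLpNorm w 2 volume ≤ ENNReal.ofReal b) :
    ∫ x, (v x ^ 2 * w x) * (w x / ‖x‖) ≤
      (|K| * b + δ * (CS.toReal * nn H)) * (2 * nn H) := by
  have hv2 : MemLp (fun x => v x ^ 2) 3 volume := memLp_sq3 hv
  have hvw : MemLp (fun x => v x ^ 2 * w x) 2 volume := mem_mul_362 hv2 hw.memLp6
  have h1 := cs2 hvw hw.memLpH
  have h2 : nn (fun x => v x ^ 2 * w x) ≤ |K| * b + δ * (CS.toReal * nn H) := by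
    have h3 := trunc_bound (K := K) hv2.1 hw.mu.1
    have h4 : eLpNorm (fun x => v x ^ 2 * w x) 2 volume ≤
        ENNReal.ofReal (|K| * b + δ * (CS.toReal * nn H)) := by
      refine h3.trans ?_
      have e1 : 0 ≤ |K| * b := by positivity
      have e2 : 0 ≤ δ * (CS.toReal * nn H) := by
        have := nn_nonneg H
        have := ENNReal.toReal_nonneg (a := CS)
        positivity
      rw [ENNReal.ofReal_add e1 e2, ENNReal.ofReal_mul (abs_nonneg _), ENNReal.ofReal_mul hδ]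
      have e3 : ENNReal.ofReal (CS.toReal * nn H) = CS * eLpNorm H 2 volume := by
        rw [ENNReal.ofReal_mul ENNReal.toReal_nonneg, ENNReal.ofReal_toReal CS_ne_top]
        unfold nn
        rw [ENNReal.ofReal_toReal hw.mG.2.ne]
      rw [e3]
      gcongr
      exact hw.sobolev
    unfold nn
    refine (ENNReal.toReal_mono ENNReal.ofReal_ne_top h4).trans (le_of_eq ?_)
    rw [ENNReal.toReal_ofReal]
    · rfl
    · have := nn_nonneg H
      have := ENNReal.toReal_nonneg (a := CS)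
      positivity
  have h5 : nn (fun x => w x / ‖x‖) ≤ 2 * nn H := by
    unfold nn
    have := ENNReal.toReal_mono (ENNReal.mul_ne_top ENNReal.ofReal_ne_top hw.mG.2.ne) hw.hardy
    rw [ENNReal.toReal_mul, ENNReal.toReal_ofReal (by norm_num)] at this
    exact this
  calc _ ≤ |∫ x, (v x ^ 2 * w x) * (w x / ‖x‖)| := le_abs_self _
    _ ≤ _ := h1
    _ ≤ _ := by
      apply mul_le_mul h2 h5 (nn_nonneg _)
      have := nn_nonneg H
      have := ENNReal.toReal_nonneg (a := CS)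
      positivity

/-- The purely numerical end of the argument. -/
lemma final_num {t g a B C I1 I2 I3 P1 P2 X δ S : ℝ} (hC : 0 ≤ C)
    (hδS : 3 * δ * S ≤ 1 / 4)
    (hgA : g ^ 2 = C - B) (hgrad : t⁻¹ * g ^ 2 = g ^ 2 + 2 * I1 + a ^ 2)
    (habs : B + 5 * I2 ≤ (t ^ 3)⁻¹ * B)
    (hhs : (t ^ 2)⁻¹ * C ≤ C + 4 * I3 + (4 * P1 + 2 * P2))
    (hweq : I1 + I2 - I3 = 0)
    (T1 : P1 ≤ ((t - 1) * X + δ * (S * a)) * (2 * a))
    (T2 : P2 ≤ ((t - 1) * X + δ * (S * a)) * (2 * a)) :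
    -(36 * X ^ 2 * (t - 1) ^ 2) ≤ B * (-(1/2) * (t⁻¹ - 1) + 1/5 * ((t ^ 3)⁻¹ - 1)) := by
  have h12 : 0 ≤ 1/4 * (t⁻¹ - 1) ^ 2 * C := by positivity
  have hTT : 4 * P1 + 2 * P2 ≤ 12 * a * ((t - 1) * X) + 12 * (δ * S) * a ^ 2 := by
    have : 4 * P1 + 2 * P2 ≤ 6 * (((t - 1) * X + δ * (S * a)) * (2 * a)) := by linarith
    refine this.trans (le_of_eq ?_)
    ring
  have hδS' : 12 * (δ * S) * a ^ 2 ≤ a ^ 2 := by
    have h0 : 12 * (δ * S) ≤ 1 := by linarith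
    nlinarith [sq_nonneg a]
  have h13 : -(9 * ((t - 1) * X) ^ 2) ≤ 1/4 * a ^ 2 - 3 * a * ((t - 1) * X) := by
    nlinarith [sq_nonneg (1/2 * a - 3 * ((t - 1) * X))]
  have h14 : -(36 * X ^ 2 * (t - 1) ^ 2) ≤ -(9 * ((t - 1) * X) ^ 2) := by
    nlinarith [mul_nonneg (sq_nonneg X) (sq_nonneg (t - 1))]
  have e2 : (t ^ 2)⁻¹ = t⁻¹ ^ 2 := by rw [inv_pow]
  have e3 : (t ^ 3)⁻¹ = t⁻¹ ^ 3 := by rw [inv_pow]
  rw [e3] at habs ⊢
  rw [e2] at hhs
  rw [hgA] at hgrad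
  generalize t⁻¹ = r at *
  have h15 : 1/2 * (r - 1) * (C - B) = I1 + 1/2 * a ^ 2 := by linarith
  have h16 : I2 ≤ 1/5 * (r ^ 3 - 1) * B := by linarith
  have h17 : 1/4 * (r ^ 2 - 1) * C ≤ I3 + 1/4 * (4 * P1 + 2 * P2) := by linarith
  have h18 : 1/2 * a ^ 2 - 1/4 * (4 * P1 + 2 * P2) ≤
      1/2 * (r - 1) * (C - B) + 1/5 * (r ^ 3 - 1) * B - 1/4 * (r ^ 2 - 1) * C := by linarith
  have h19 : 1/2 * (r - 1) * (C - B) + 1/5 * (r ^ 3 - 1) * B - 1/4 * (r ^ 2 - 1) * C =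
      B * (-(1/2) * (r - 1) + 1/5 * (r ^ 3 - 1)) - 1/4 * (r - 1) ^ 2 * C := by ring
  linarith

theorem key_ineq (h : HP Ω u G) (ho : IsOpen Ω) (hs : Star Ω) {R : ℝ} (hR : 0 ≤ R)
    (hΩ : ∀ x ∈ Ω, ‖x‖ ≤ R) (hnn : ∀ᵐ x ∂volume, 0 ≤ u x)
    (hweak : ∀ ψ, IsT Ω ψ → ∫ x, (inner ℝ (G x) (gradient ψ x) + u x ^ 4 * ψ x
      - u x ^ 3 * ψ x / ‖x‖) = 0) :
    ∃ M : ℝ, ∀ t : ℝ, 1 ≤ t → t ≤ 2 →
      -(M * (t - 1) ^ 2) ≤ (∫ x, u x ^ 5) * (-(1/2) * (t⁻¹ - 1) + 1/5 * ((t ^ 3)⁻¹ - 1)) := by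
  have h6 := h.memLp6
  have h3 := h.memLp3 ho hΩ
  have hc := memLp_cube h6
  set S := CS.toReal with hS
  have hS0 : 0 ≤ S := ENNReal.toReal_nonneg
  set δ : ℝ := 1 / (12 * (S + 1)) with hδ
  have hδ0 : 0 < δ := by positivity
  have hδS : 3 * δ * S ≤ 1 / 4 := by
    rw [hδ]
    have : 3 * (1 / (12 * (S + 1))) * S = (1/4) * (S / (S + 1)) := by field_simp; ring
    rw [this]
    have : S / (S + 1) ≤ 1 := by rw [div_le_one (by linarith)]; linarith
    linarith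
  obtain ⟨K, hK⟩ := exists_trunc (memLp_sq3 h6) hδ0
  set g := nn G with hg
  have hg0 : 0 ≤ g := nn_nonneg G
  -- basic integrals
  set B := ∫ x, u x ^ 5 with hB
  set C := ∫ x, u x ^ 4 / ‖x‖ with hC
  have hsq : MemLp (fun x => u x ^ 2) 2 volume := by
    have := mem_mul_362 h3 h6
    simpa [pow_two] using this
  have huu : ∀ {v : E3 → ℝ}, MemLp v 6 volume → MemLp v 3 volume →
      Integrable (fun x => v x ^ 5) := by
    intro v h6 h3
    have e := integrable_mul2 (memLp_cube h6) (mem_mul_362 h3 h6)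
    refine e.congr (Eventually.of_forall fun x => ?_)
    simp only; ring
  have hA : nn G ^ 2 + B - C = 0 := by
    have e := weak_ext h ho hΩ hweak h
    have e1 : ∫ x, inner ℝ (G x) (G x) = nn G ^ 2 := by
      rw [← nn_sq h.mG]
      congr 1; funext x; exact real_inner_self_eq_norm_sq _
    have e2 : ∫ x, u x ^ 3 * (u x * u x) = B := by
      rw [hB]; congr 1; funext x; ring
    have e3 : ∫ x, u x ^ 3 * (u x / ‖x‖) = C := by
      rw [hC]; congr 1; funext x; ring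
    rw [e1, e2, e3] at e
    exact e
  have hC0 : 0 ≤ C := by
    apply integral_nonneg
    intro x
    positivity
  have hB0 : 0 ≤ B := by
    apply integral_nonneg_of_ae
    filter_upwards [hnn] with x hx
    simp only [Pi.zero_apply]
    positivity
  refine ⟨36 * (|K| * R * g) ^ 2, fun t ht ht2 => ?_⟩
  have ht0 : (0:ℝ) < t := by linarith
  set U : E3 → ℝ := fun x => u (t • x) with hU
  set w : E3 → ℝ := fun x => U x - u x with hw
  set H : E3 → E3 := fun x => t • G (t • x) - G x with hH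
  have hUHP : HP Ω U (fun x => t • G (t • x)) := h.dil hs ht
  have hwHP : HP Ω w H := hUHP.sub h
  have hU6 := hUHP.memLp6
  have hU3 := hUHP.memLp3 ho hΩ
  have hweq := weak_ext h ho hΩ hweak hwHP
  set a := nn H with ha
  have ha0 : 0 ≤ a := nn_nonneg H
  -- gradient term
  have i1 : Integrable fun x => ‖G x‖ ^ 2 := h.mG.integrable_norm_pow (by norm_num)
  have i2 : Integrable fun x => ‖H x‖ ^ 2 := hwHP.mG.integrable_norm_pow (by norm_num)
  have i3 := integrable_inner2 h.mG hwHP.mG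
  have hgrad : t⁻¹ * g ^ 2 = g ^ 2 + 2 * (∫ x, inner ℝ (G x) (H x)) + a ^ 2 := by
    have e1 : ∫ x, ‖t • G (t • x)‖ ^ 2 = t⁻¹ * g ^ 2 := by
      have e2 : ∀ x : E3, ‖t • G (t • x)‖ ^ 2 = t ^ 2 * ‖G (t • x)‖ ^ 2 := by
        intro x; rw [norm_smul, mul_pow, Real.norm_of_nonneg ht0.le]
      simp_rw [e2]
      rw [integral_const_mul, int_dil (fun x => ‖G x‖ ^ 2) ht, nn_sq h.mG, ← hg]
      field_simp
    have e3 : ∫ x, ‖t • G (t • x)‖ ^ 2 =
        ∫ x, (‖G x‖ ^ 2 + 2 * inner ℝ (G x) (H x) + ‖H x‖ ^ 2) := by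
      congr 1
      funext x
      have : t • G (t • x) = G x + H x := by simp only [hH]; abel
      rw [this, norm_add_sq_real]
    have i4 : Integrable fun x => ‖G x‖ ^ 2 + 2 * inner ℝ (G x) (H x) := i1.add (i3.const_mul 2)
    rw [← e1, e3, integral_add i4 i2, integral_add i1 (i3.const_mul 2), integral_const_mul,
      nn_sq h.mG, nn_sq hwHP.mG]
  -- absorption term
  have j1 := huu h6 h3
  have j2 : Integrable fun x => U x ^ 5 := huu hU6 hU3
  have j3 := integrable_mul2 hc (mem_mul_362 h3 hwHP.memLp6)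
  have hnnU : ∀ᵐ x ∂volume, 0 ≤ U x := by
    have hq := (measurable_dil t).aemeasurable (μ := (volume : Measure E3))
    have : ∀ᵐ y ∂(Measure.map (fun x : E3 => t • x) volume), 0 ≤ u y := by
      have hac : (Measure.map (fun x : E3 => t • x) volume) ≪ (volume : Measure E3) :=
        Measure.absolutelyContinuous_of_le (map_dil_le ht)
      exact hac.ae_le hnn
    exact ae_of_ae_map hq this
  have habs : B + 5 * (∫ x, u x ^ 3 * (u x * w x)) ≤ (t ^ 3)⁻¹ * B := by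
    have e1 : ∫ x, U x ^ 5 = (t ^ 3)⁻¹ * B := int_dil (fun x => u x ^ 5) ht
    rw [← e1, ← integral_const_mul, hB, ← integral_add j1 (j3.const_mul 5)]
    apply integral_mono_ae (j1.add (j3.const_mul 5)) j2
    filter_upwards [hnn, hnnU] with x hx hx'
    have := one_sided (u x) (U x) hx hx'
    simp only [Pi.add_apply]
    calc u x ^ 5 + 5 * (u x ^ 3 * (u x * w x)) = u x ^ 5 + 5 * u x ^ 4 * (U x - u x) := by
          simp only [hw]; ring
      _ ≤ _ := this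
  -- Hardy-Sobolev term
  have k1 : Integrable fun x => u x ^ 4 / ‖x‖ := by
    have := integrable_mul2 hc h.memLpH
    refine this.congr (Eventually.of_forall fun x => ?_)
    simp only; ring
  have k2 : Integrable fun x => U x ^ 4 / ‖x‖ := by
    have := integrable_mul2 (memLp_cube hU6) hUHP.memLpH
    refine this.congr (Eventually.of_forall fun x => ?_)
    simp only; ring
  have k3 := integrable_mul2 hc hwHP.memLpH
  have k4 := integrable_mul2 (mem_mul_362 (memLp_sq3 h6) hwHP.memLp6) hwHP.memLpH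
  have k5 := integrable_mul2 (mem_mul_362 (memLp_sq3 hU6) hwHP.memLp6) hwHP.memLpH
  have hdil4 : ∫ x, U x ^ 4 / ‖x‖ = (t ^ 2)⁻¹ * C := by
    have e1 : ∀ x : E3, U x ^ 4 / ‖x‖ = t * (fun y => u y ^ 4 / ‖y‖) (t • x) := by
      intro x
      simp only [hU, norm_smul, Real.norm_of_nonneg ht0.le]
      rcases eq_or_ne ‖x‖ 0 with hx | hx
      · rw [hx]; simp
      · field_simp
    have e2 : ∫ x, U x ^ 4 / ‖x‖ = ∫ x : E3, t * (fun y => u y ^ 4 / ‖y‖) (t • x) := by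
      congr 1; funext x; exact e1 x
    have e3 := int_dil (fun y => u y ^ 4 / ‖y‖) ht
    rw [e2, integral_const_mul, e3, hC]
    field_simp
  have hhs : (t ^ 2)⁻¹ * C ≤ C + 4 * (∫ x, u x ^ 3 * (w x / ‖x‖)) +
      (4 * (∫ x, (u x ^ 2 * w x) * (w x / ‖x‖)) + 2 * ∫ x, (U x ^ 2 * w x) * (w x / ‖x‖)) := by
    have i12 : Integrable (fun x => u x ^ 4 / ‖x‖ + 4 * (u x ^ 3 * (w x / ‖x‖))) :=
      k1.add (k3.const_mul 4)
    have i34 : Integrable (fun x => 4 * (u x ^ 2 * w x * (w x / ‖x‖)) +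
        2 * (U x ^ 2 * w x * (w x / ‖x‖))) :=
      (k4.const_mul 4).add (k5.const_mul 2)
    have s12 : ∫ x, (u x ^ 4 / ‖x‖ + 4 * (u x ^ 3 * (w x / ‖x‖))) =
        C + 4 * (∫ x, u x ^ 3 * (w x / ‖x‖)) := by
      rw [integral_add k1 (k3.const_mul 4), integral_const_mul]
    have s34 : ∫ x, (4 * (u x ^ 2 * w x * (w x / ‖x‖)) + 2 * (U x ^ 2 * w x * (w x / ‖x‖))) =
        4 * (∫ x, (u x ^ 2 * w x) * (w x / ‖x‖)) + 2 * ∫ x, (U x ^ 2 * w x) * (w x / ‖x‖) := by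
      rw [integral_add (k4.const_mul 4) (k5.const_mul 2), integral_const_mul, integral_const_mul]
    rw [← hdil4, ← s12, ← s34, ← integral_add i12 i34]
    apply integral_mono k2 (i12.add i34)
    intro x
    simp only [Pi.add_apply]
    rcases eq_or_ne ‖x‖ 0 with hx | hx
    · rw [hx]; simp
    · have hxp : 0 < ‖x‖ := lt_of_le_of_ne (norm_nonneg x) (Ne.symm hx)
      have e : u x ^ 4 / ‖x‖ + 4 * (u x ^ 3 * (w x / ‖x‖)) +
          (4 * (u x ^ 2 * w x * (w x / ‖x‖)) + 2 * (U x ^ 2 * w x * (w x / ‖x‖))) =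
          (u x ^ 4 + 4 * u x ^ 3 * w x + 4 * u x ^ 2 * w x ^ 2 + 2 * U x ^ 2 * w x ^ 2) / ‖x‖ := by
        field_simp
        ring
      rw [e]
      apply div_le_div_of_nonneg_right _ hxp.le
      have hUw : U x = u x + w x := by simp only [hw]; ring
      rw [hUw]
      nlinarith [mul_nonneg (sq_nonneg (w x)) (sq_nonneg (w x)), sq_nonneg (w x * w x),
        sq_nonneg (w x), sq_nonneg (u x * w x)]
  -- remainder bound
  have hwb : eLpNorm w 2 volume ≤ ENNReal.ofReal ((t - 1) * R * g) := by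
    have := h.diff hR hΩ ht
    refine this.trans (le_of_eq ?_)
    have hn : 0 ≤ (t - 1) * R := by
      have : 0 ≤ t - 1 := by linarith
      positivity
    have e : ENNReal.ofReal g = eLpNorm G 2 volume := by
      rw [hg]; unfold nn
      rw [ENNReal.ofReal_toReal h.mG.2.ne]
    rw [ENNReal.ofReal_mul hn, e]
  have hbb : 0 ≤ (t - 1) * R * g := by
    have : 0 ≤ t - 1 := by linarith
    positivity
  have hKU : eLpNorm ({x | K ≤ ‖U x ^ 2‖}.indicator fun x => U x ^ 2) 3 volume ≤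
      ENNReal.ofReal δ := by
    have hmeas : NullMeasurableSet {x | K ≤ ‖u x ^ 2‖} volume :=
      nullMeasurableSet_le aemeasurable_const (memLp_sq3 h6).1.norm.aemeasurable
    have := eLpNorm_dil_le (f := {x | K ≤ ‖u x ^ 2‖}.indicator fun x => u x ^ 2)
      ((memLp_sq3 h6).1.indicator₀ hmeas) 3 ht
    refine le_trans (le_of_eq ?_) (this.trans hK)
    congr 1
  have T1 := T_bound h6 hwHP hδ0.le hK hbb hwb
  have T2 := T_bound hU6 hwHP hδ0.le hKU hbb hwb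
  rw [← hS, ← ha] at T1 T2
  -- conclusion
  have hgA : g ^ 2 = C - B := by linarith [hA]
  have e9 : |K| * ((t - 1) * R * g) = (t - 1) * (|K| * R * g) := by ring
  rw [e9] at T1 T2
  exact final_num hC0 hδS hgA hgrad habs hhs hweq T1 T2

/-- No positive solution on a domain which is star-shaped with respect to the origin. -/
theorem no_solution (h : HP Ω u G) (ho : IsOpen Ω) (hne : Ω.Nonempty) (hs : Star Ω) {R : ℝ}
    (hR : 0 ≤ R) (hΩ : ∀ x ∈ Ω, ‖x‖ ≤ R) (hpos : ∀ᵐ x ∂volume, x ∈ Ω → 0 < u x)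
    (hweak : ∀ ψ, IsT Ω ψ → ∫ x, (inner ℝ (G x) (gradient ψ x) + u x ^ 4 * ψ x
      - u x ^ 3 * ψ x / ‖x‖) = 0) : False := by
  have hnn : ∀ᵐ x ∂volume, 0 ≤ u x := by
    filter_upwards [hpos, h.zero] with x hx hx0
    by_cases hxΩ : x ∈ Ω
    · exact (hx hxΩ).le
    · exact (hx0 hxΩ).ge
  obtain ⟨M, hM⟩ := key_ineq h ho hs hR hΩ hnn hweak
  have h6 := h.memLp6
  have h3 := h.memLp3 ho hΩ
  have hBpos : 0 < ∫ x, u x ^ 5 := by
    have hint : Integrable (fun x => u x ^ 5) := by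
      have e := integrable_mul2 (memLp_cube h6) (mem_mul_362 h3 h6)
      refine e.congr (Eventually.of_forall fun x => ?_)
      simp only; ring
    rw [integral_pos_iff_support_of_nonneg_ae _ hint]
    · have h1 : 0 < volume Ω := ho.measure_pos volume hne
      refine h1.trans_le ?_
      apply measure_mono_ae
      filter_upwards [hpos] with x hx hxΩ
      exact (pow_pos (hx hxΩ) 5).ne'
    · filter_upwards [hnn] with x hx
      simp only [Pi.zero_apply]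
      positivity
  set B := ∫ x, u x ^ 5 with hB
  -- choose `t = 1 / (1 - σ)` with `σ` small
  set L : ℝ := 4 * |M| + B with hL
  have hLpos : 0 < L := by positivity
  set σ : ℝ := min (1/2) (B / (20 * L)) with hσ
  have hσ0 : 0 < σ := by positivity
  have hσ1 : σ ≤ 1/2 := min_le_left _ _
  have hσ2 : σ * (20 * L) ≤ B := by
    have : σ ≤ B / (20 * L) := min_le_right _ _
    rwa [le_div_iff₀ (by positivity)] at this
  have h1σ : 0 < 1 - σ := by linarith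
  have ht1 : 1 ≤ (1 - σ)⁻¹ := by
    rw [one_le_inv₀ h1σ]; linarith
  have ht2 : (1 - σ)⁻¹ ≤ 2 := by
    rw [inv_le_comm₀ h1σ (by norm_num)]; linarith
  have h4 := hM (1 - σ)⁻¹ ht1 ht2
  rw [inv_pow, inv_inv, inv_inv] at h4
  have h5 : ((1 - σ)⁻¹ - 1) ^ 2 ≤ 4 * σ ^ 2 := by
    have e1 : (1 - σ)⁻¹ - 1 = σ * (1 - σ)⁻¹ := by field_simp; ring
    rw [e1, mul_pow]
    have e2 : ((1 - σ)⁻¹) ^ 2 ≤ 4 := by nlinarith
    nlinarith [sq_nonneg σ]
  have h6' : -(|M| * (4 * σ ^ 2)) ≤ -(M * ((1 - σ)⁻¹ - 1) ^ 2) := by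
    have e1 : M * ((1 - σ)⁻¹ - 1) ^ 2 ≤ |M| * ((1 - σ)⁻¹ - 1) ^ 2 :=
      mul_le_mul_of_nonneg_right (le_abs_self M) (sq_nonneg _)
    have e2 : |M| * ((1 - σ)⁻¹ - 1) ^ 2 ≤ |M| * (4 * σ ^ 2) :=
      mul_le_mul_of_nonneg_left h5 (abs_nonneg M)
    linarith
  have h7 : B * (-(1/2) * ((1 - σ) - 1) + 1/5 * ((1 - σ) ^ 3 - 1)) =
      B * σ * (-(1/10) + 3/5 * σ - 1/5 * σ ^ 2) := by ring
  rw [h7] at h4
  have h8 : B * σ * (-(1/10) + 3/5 * σ - 1/5 * σ ^ 2) ≤ B * σ * (-(1/10) + 3/5 * σ) := by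
    apply mul_le_mul_of_nonneg_left _ (by positivity)
    nlinarith [sq_nonneg σ]
  have h9 : -(|M| * (4 * σ ^ 2)) ≤ B * σ * (-(1/10) + 3/5 * σ) := by linarith
  have h10 : 0 ≤ σ * (-(B / 10) + σ * (3/5 * B + 4 * |M|)) := by nlinarith
  have h11 : -(B / 10) + σ * (3/5 * B + 4 * |M|) < 0 := by
    have : σ * (3/5 * B + 4 * |M|) ≤ σ * L := by
      apply mul_le_mul_of_nonneg_left _ hσ0.le
      rw [hL]; linarith
    nlinarith
  nlinarith [mul_neg_of_pos_of_neg hσ0 h11]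

end Pool.Agent.R217.LL
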