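import Pool.Agent.R217.LL.Final

set_option autoImplicit false

open MeasureTheory Filter Topology
open scoped ContDiff ENNReal

namespace Pool.Agent.R217.LL

/-- The centre of the ball. -/
noncomputable def cc : E3 := EuclideanSpace.single 0 1

lemma norm_cc : ‖cc‖ = 1 := by simp [cc]

lemma ball_smooth : ∃ ρ : E3 → ℝ,
    ContDiff ℝ ((⊤ : ℕ∞) : WithTop ℕ∞) ρ ∧ Metric.ball cc 1 = {x | ρ x < 0} ∧
        ∀ x ∈ frontier (Metric.ball cc 1), fderiv ℝ ρ x ≠ 0 := by
  refine ⟨fun x => ‖x - cc‖ ^ 2 - 1, ?_, ?_, ?_⟩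
  · exact ((contDiff_id.sub contDiff_const).norm_sq ℝ).sub contDiff_const
  · ext x
    rw [Metric.mem_ball, dist_eq_norm]
    change _ ↔ ‖x - cc‖ ^ 2 - 1 < 0
    rw [sub_neg, sq_lt_one_iff₀ (norm_nonneg _)]
  · intro x hx hd
    rw [frontier_ball cc one_ne_zero, mem_sphere_iff_norm] at hx
    have h2 : HasFDerivAt (fun x : E3 => x - cc) (ContinuousLinearMap.id ℝ E3) x :=
      (hasFDerivAt_id x).sub_const cc
    have h3 := h2.norm_sq
    have h4 := h3.sub_const 1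
    rw [h4.fderiv] at hd
    have h5 := congrArg (fun L : E3 →L[ℝ] ℝ => L (x - cc)) hd
    have h6 : (inner ℝ (x - cc) (x - cc) : ℝ) = 0 := by
      rw [inner_sub_left]
      simpa using h5
    rw [real_inner_self_eq_norm_sq, hx] at h6
    norm_num at h6

lemma ball_zero : (0 : E3) ∈ frontier (Metric.ball cc 1) := by
  rw [frontier_ball cc one_ne_zero, mem_sphere_iff_norm, zero_sub, norm_neg, norm_cc]

lemma ball_star : LL.Star (Metric.ball cc 1) := by
  intro t ht x hx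
  rw [mem_ball_iff_norm] at hx ⊢
  have e1 : ‖t • x - cc‖ ^ 2 < 1 := by
    rw [sq_lt_one_iff₀ (norm_nonneg _)]; exact hx
  have e2 : ‖x - cc‖ ^ 2 < 1 := by
    rw [norm_sub_sq_real, norm_cc] at e1 ⊢
    rw [real_inner_smul_left, norm_smul, Real.norm_of_nonneg (by linarith)] at e1
    have e3 : t ^ 2 * ‖x‖ ^ 2 < 2 * t * inner ℝ x cc := by nlinarith
    have e4 : t * ‖x‖ ^ 2 < 2 * inner ℝ x cc := by
      by_contra hcon
      push Not at hcon
      nlinarith [mul_le_mul_of_nonneg_left hcon (by linarith : (0:ℝ) ≤ t)]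
    nlinarith [sq_nonneg ‖x‖, mul_nonneg (by linarith : (0:ℝ) ≤ t - 1) (sq_nonneg ‖x‖)]
  rwa [sq_lt_one_iff₀ (norm_nonneg _)] at e2

end Pool.Agent.R217.LL
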