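import Mathlib

/-! Hardy inequality and Sobolev inequality in `ℝ³`, and their extension to `H¹₀`. -/

set_option autoImplicit false

open MeasureTheory Filter Topology
open scoped ContDiff

namespace Pool.Agent.R217.LL

/-- Euclidean three-space. -/
abbrev E3 : Type := EuclideanSpace ℝ (Fin 3)

/-- Test functions supported in `Ω`. -/
def IsT (Ω : Set E3) (φ : E3 → ℝ) : Prop :=
  ContDiff ℝ ((⊤ : ℕ∞) : WithTop ℕ∞) φ ∧ HasCompactSupport φ ∧ tsupport φ ⊆ Ω

lemma norm_sq_E3 (x : E3) : ‖x‖ ^ 2 = ∑ i, x i ^ 2 := by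
  rw [EuclideanSpace.norm_eq, Real.sq_sqrt (by positivity)]
  simp

lemma norm_gradient (φ : E3 → ℝ) (x : E3) : ‖gradient φ x‖ = ‖fderiv ℝ φ x‖ := by
  rw [gradient]; simp

section hardy

variable {φ : E3 → ℝ} {ε : ℝ}

/-- the vector field `x / (|x|² + ε)` -/
noncomputable def Vi (ε : ℝ) (i : Fin 3) (x : E3) : ℝ := x i / (‖x‖ ^ 2 + ε)

lemma contDiff_Vi (hε : 0 < ε) (i : Fin 3) : ContDiff ℝ 1 (Vi ε i) := by
  unfold Vi
  apply ContDiff.div
  · exact (EuclideanSpace.proj i : E3 →L[ℝ] ℝ).contDiff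
  · exact (contDiff_norm_sq ℝ).add contDiff_const
  · intro x; positivity

lemma fderiv_Vi (hε : 0 < ε) (i : Fin 3) (x : E3) :
    fderiv ℝ (Vi ε i) x (EuclideanSpace.single i 1) =
      1 / (‖x‖ ^ 2 + ε) - 2 * x i ^ 2 / (‖x‖ ^ 2 + ε) ^ 2 := by
  have h1 : HasFDerivAt (fun y : E3 => y i) (EuclideanSpace.proj i : E3 →L[ℝ] ℝ) x :=
    (EuclideanSpace.proj i : E3 →L[ℝ] ℝ).hasFDerivAt
  have h2 : HasFDerivAt (fun y : E3 => ‖y‖ ^ 2 + ε) (2 • (innerSL ℝ x)) x := by
    have := (hasStrictFDerivAt_norm_sq x).hasFDerivAt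
    simpa using this.add_const ε
  have hne : ‖x‖ ^ 2 + ε ≠ 0 := by positivity
  have h2' := (hasDerivAt_inv hne).comp_hasFDerivAt x h2
  have h3 := h1.mul h2'
  have h4 : HasFDerivAt (Vi ε i) _ x := h3
  rw [h4.fderiv]
  have e1 : (EuclideanSpace.proj i : E3 →L[ℝ] ℝ) (EuclideanSpace.single i (1:ℝ)) = 1 := by simp
  have e2 : (innerSL ℝ x) (EuclideanSpace.single i (1:ℝ)) = x i := by
    simp [EuclideanSpace.inner_single_right]
  simp only [ContinuousLinearMap.smul_apply, ContinuousLinearMap.add_apply, e1, e2, smul_eq_mul,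
    Function.comp_apply]
  field_simp
  simp
  ring

lemma sum_div (x : E3) (hε : 0 < ε) :
    1 / (‖x‖ ^ 2 + ε) ≤ ∑ i : Fin 3, (1 / (‖x‖ ^ 2 + ε) - 2 * x i ^ 2 / (‖x‖ ^ 2 + ε) ^ 2) := by
  have h : ∑ i : Fin 3, (1 / (‖x‖ ^ 2 + ε) - 2 * x i ^ 2 / (‖x‖ ^ 2 + ε) ^ 2) =
      3 / (‖x‖ ^ 2 + ε) - 2 * ‖x‖ ^ 2 / (‖x‖ ^ 2 + ε) ^ 2 := by
    rw [Finset.sum_sub_distrib, ← Finset.sum_div, ← Finset.sum_div, ← Finset.mul_sum, ← norm_sq_E3]
    simp
  rw [h]
  have hp : 0 < ‖x‖ ^ 2 + ε := by positivity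
  rw [div_sub_div _ _ hp.ne' (by positivity), div_le_div_iff₀ hp (by positivity)]
  nlinarith [sq_nonneg ‖x‖, mul_pos hp hp, mul_pos (mul_pos hp hp) hε]

lemma hardy_eps (hφ : ContDiff ℝ ((⊤ : ℕ∞) : WithTop ℕ∞) φ) (hc : HasCompactSupport φ)
    (hε : 0 < ε) :
    ∫ x, φ x ^ 2 / (‖x‖ ^ 2 + ε) ≤ 4 * ∫ x, ‖gradient φ x‖ ^ 2 := by
  have hφ1 : ContDiff ℝ 1 φ := hφ.of_le (by exact_mod_cast le_top)
  have hcont : Continuous φ := hφ.continuous
  have hden : Continuous fun x : E3 => ‖x‖ ^ 2 + ε := by fun_prop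
  have hdne : ∀ x : E3, ‖x‖ ^ 2 + ε ≠ 0 := fun x => by positivity
  have hf' : Continuous fun x => fderiv ℝ φ x := hφ1.continuous_fderiv (by norm_num)
  have hcf : HasCompactSupport fun x => fderiv ℝ φ x := hc.fderiv (𝕜 := ℝ)
  -- integrability facts
  have hsq : HasCompactSupport fun x => φ x ^ 2 := by
    have := hc.comp_left (g := fun t : ℝ => t ^ 2) (by simp)
    exact this
  have hd2 : ∀ x v, fderiv ℝ (fun x => φ x ^ 2) x v = 2 * φ x * fderiv ℝ φ x v := by
    intro x v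
    have := ((hφ1.differentiable (by norm_num)) x).hasFDerivAt.pow 2
    have h2 : HasFDerivAt (fun x => φ x ^ 2) _ x := this
    rw [h2.fderiv]
    simp
  have key : ∀ i : Fin 3,
      ∫ x, φ x ^ 2 * (1 / (‖x‖ ^ 2 + ε) - 2 * x i ^ 2 / (‖x‖ ^ 2 + ε) ^ 2) =
        -∫ x, 2 * φ x * fderiv ℝ φ x (EuclideanSpace.single i 1) * Vi ε i x := by
    intro i
    have hV := contDiff_Vi hε i
    have hVc : Continuous (Vi ε i) := hV.continuous
    have h := integral_mul_fderiv_eq_neg_fderiv_mul_of_integrable (μ := (volume : Measure E3))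
      (𝕜 := ℝ) (f := fun x => φ x ^ 2) (g := Vi ε i) (v := EuclideanSpace.single i (1:ℝ))
      ?_ ?_ ?_ ?_ ?_
    · rw [show (fun x => φ x ^ 2 * (1 / (‖x‖ ^ 2 + ε) - 2 * x i ^ 2 / (‖x‖ ^ 2 + ε) ^ 2)) =
        fun x => φ x ^ 2 * fderiv ℝ (Vi ε i) x (EuclideanSpace.single i 1) from by
          funext x; rw [fderiv_Vi hε i x], h]
      congr 1
      apply integral_congr_ae
      filter_upwards with x
      rw [hd2]
    · apply Continuous.integrable_of_hasCompactSupport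
      · simp_rw [hd2]; fun_prop
      · simp_rw [hd2]
        apply HasCompactSupport.mul_right
        apply HasCompactSupport.mul_left
        exact hcf.comp_left (g := fun L : E3 →L[ℝ] ℝ => L (EuclideanSpace.single i 1)) (by simp)
    · apply Continuous.integrable_of_hasCompactSupport
      · have : Continuous fun x => fderiv ℝ (Vi ε i) x := hV.continuous_fderiv (by norm_num)
        fun_prop
      · exact hsq.mul_right
    · apply Continuous.integrable_of_hasCompactSupport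
      · fun_prop
      · exact hsq.mul_right
    · intro x _
      exact ((hφ1.differentiable (by norm_num)) x).pow 2
    · intro x _
      exact (hV.differentiable (by norm_num)) x
  have hint1 : Integrable fun x => φ x ^ 2 / (‖x‖ ^ 2 + ε) := by
    apply Continuous.integrable_of_hasCompactSupport
    · exact (hcont.pow 2).div hden hdne
    · simp_rw [div_eq_mul_inv]
      exact hsq.mul_right
  have hint2 : ∀ i : Fin 3, Integrable fun x : E3 =>
      φ x ^ 2 * (1 / (‖x‖ ^ 2 + ε) - 2 * x i ^ 2 / (‖x‖ ^ 2 + ε) ^ 2) := by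
    intro i
    apply Continuous.integrable_of_hasCompactSupport
    · apply (hcont.pow 2).mul
      apply Continuous.sub
      · exact continuous_const.div hden hdne
      · apply Continuous.div
        · fun_prop
        · fun_prop
        · intro x; exact pow_ne_zero 2 (hdne x)
    · exact hsq.mul_right
  have hint3 : ∀ i : Fin 3, Integrable fun x : E3 =>
      2 * φ x * fderiv ℝ φ x (EuclideanSpace.single i 1) * Vi ε i x := by
    intro i
    have hVc : Continuous (Vi ε i) := (contDiff_Vi hε i).continuous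
    apply Continuous.integrable_of_hasCompactSupport
    · fun_prop
    · apply HasCompactSupport.mul_right
      apply HasCompactSupport.mul_left
      exact hcf.comp_left (g := fun L : E3 →L[ℝ] ℝ => L (EuclideanSpace.single i 1)) (by simp)
  have hint4 : Integrable fun x : E3 => ‖gradient φ x‖ ^ 2 := by
    simp_rw [norm_gradient]
    apply Continuous.integrable_of_hasCompactSupport
    · fun_prop
    · exact hcf.comp_left (g := fun L : E3 →L[ℝ] ℝ => ‖L‖ ^ 2) (by simp)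
  have step1 : ∫ x, φ x ^ 2 / (‖x‖ ^ 2 + ε) ≤
      ∫ x, ∑ i : Fin 3, φ x ^ 2 * (1 / (‖x‖ ^ 2 + ε) - 2 * x i ^ 2 / (‖x‖ ^ 2 + ε) ^ 2) := by
    apply integral_mono hint1 (integrable_finsetSum _ fun i _ => hint2 i)
    intro x
    simp only
    rw [← Finset.mul_sum, div_eq_mul_one_div]
    exact mul_le_mul_of_nonneg_left (sum_div x hε) (sq_nonneg _)
  have step2 : ∫ x, ∑ i : Fin 3, φ x ^ 2 * (1 / (‖x‖ ^ 2 + ε) - 2 * x i ^ 2 / (‖x‖ ^ 2 + ε) ^ 2) =
      ∫ x, -∑ i : Fin 3, 2 * φ x * fderiv ℝ φ x (EuclideanSpace.single i 1) * Vi ε i x := by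
    rw [integral_finsetSum _ fun i _ => hint2 i, integral_neg,
      integral_finsetSum _ fun i _ => hint3 i, ← Finset.sum_neg_distrib]
    exact Finset.sum_congr rfl fun i _ => key i
  have step3 : ∫ x, -∑ i : Fin 3, 2 * φ x * fderiv ℝ φ x (EuclideanSpace.single i 1) * Vi ε i x ≤
      ∫ x, ((1/2) * (φ x ^ 2 / (‖x‖ ^ 2 + ε)) + 2 * ‖gradient φ x‖ ^ 2) := by
    apply integral_mono (integrable_finsetSum _ fun i _ => hint3 i).neg
      ((hint1.const_mul _).add (hint4.const_mul _))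
    intro x
    simp only
    have hp : 0 < ‖x‖ ^ 2 + ε := by positivity
    have hsum : ∑ i : Fin 3, 2 * φ x * fderiv ℝ φ x (EuclideanSpace.single i 1) * Vi ε i x =
        2 * φ x / (‖x‖ ^ 2 + ε) * fderiv ℝ φ x x := by
      have hx : x = ∑ i : Fin 3, x i • EuclideanSpace.single i (1:ℝ) := by
        ext j
        simp [Finset.sum_apply, Pi.single_apply]
      conv_rhs => rw [show fderiv ℝ φ x x = fderiv ℝ φ x (∑ i : Fin 3, x i • EuclideanSpace.single i (1:ℝ)) from by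
        rw [← hx]]
      rw [map_sum, Finset.mul_sum]
      apply Finset.sum_congr rfl
      intro i _
      unfold Vi
      rw [map_smul, smul_eq_mul]
      ring
    show -∑ i : Fin 3, 2 * φ x * fderiv ℝ φ x (EuclideanSpace.single i 1) * Vi ε i x ≤
      (1/2) * (φ x ^ 2 / (‖x‖ ^ 2 + ε)) + 2 * ‖gradient φ x‖ ^ 2
    rw [hsum, norm_gradient]
    have h1 : |fderiv ℝ φ x x| ≤ ‖fderiv ℝ φ x‖ * ‖x‖ := by
      rw [← Real.norm_eq_abs]
      exact (fderiv ℝ φ x).le_opNorm x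
    set a := ‖fderiv ℝ φ x‖
    have ha : 0 ≤ a := norm_nonneg _
    have h2 : -(2 * φ x / (‖x‖ ^ 2 + ε) * fderiv ℝ φ x x) ≤
        2 * |φ x| / (‖x‖ ^ 2 + ε) * (a * ‖x‖) := by
      calc -(2 * φ x / (‖x‖ ^ 2 + ε) * fderiv ℝ φ x x)
          ≤ |2 * φ x / (‖x‖ ^ 2 + ε) * fderiv ℝ φ x x| := neg_le_abs _
        _ = 2 * |φ x| / (‖x‖ ^ 2 + ε) * |fderiv ℝ φ x x| := by
            rw [abs_mul, abs_div, abs_mul, abs_of_pos hp, abs_of_pos (by norm_num : (0:ℝ) < 2)]
        _ ≤ _ := mul_le_mul_of_nonneg_left h1 (by positivity)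
    refine h2.trans ?_
    have h3 : 2 * |φ x| / (‖x‖ ^ 2 + ε) * (a * ‖x‖) =
        (2 * |φ x| * a * ‖x‖) / (‖x‖ ^ 2 + ε) := by ring
    have h4 : 1 / 2 * (φ x ^ 2 / (‖x‖ ^ 2 + ε)) + 2 * a ^ 2 =
        (1 / 2 * φ x ^ 2 + 2 * a ^ 2 * (‖x‖ ^ 2 + ε)) / (‖x‖ ^ 2 + ε) := by
      field_simp
    rw [h3, h4]
    apply div_le_div_of_nonneg_right _ hp.le
    have h5 : φ x ^ 2 = |φ x| ^ 2 := (sq_abs _).symm
    rw [h5]
    nlinarith [sq_nonneg (|φ x| - 2 * (a * ‖x‖)), mul_nonneg (sq_nonneg a) hε.le]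
  rw [integral_add (hint1.const_mul _) (hint4.const_mul _), integral_const_mul,
    integral_const_mul] at step3
  linarith

end hardy

end Pool.Agent.R217.LL
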