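import Pool.Agent.R217.LL.Dil

set_option autoImplicit false

open MeasureTheory Filter Topology
open scoped ContDiff ENNReal

namespace Pool.Agent.R217.LL

/-- Real valued `L²` norm. -/
noncomputable def nn {F : Type*} [NormedAddCommGroup F] (f : E3 → F) : ℝ :=
  (eLpNorm f 2 (volume : Measure E3)).toReal

lemma nn_nonneg {F : Type*} [NormedAddCommGroup F] (f : E3 → F) : 0 ≤ nn f :=
  ENNReal.toReal_nonneg

lemma nn_sq {F : Type*} [NormedAddCommGroup F] {f : E3 → F} (hf : MemLp f 2 volume) :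
    ∫ x, ‖f x‖ ^ 2 = nn f ^ 2 := by
  unfold nn
  rw [hf.eLpNorm_eq_integral_rpow_norm (by norm_num) (by norm_num)]
  simp only [ENNReal.toReal_ofNat, Real.rpow_ofNat]
  have hA : 0 ≤ ∫ x, ‖f x‖ ^ 2 := integral_nonneg fun x => by positivity
  rw [ENNReal.toReal_ofReal (by positivity), show ((2:ℝ)⁻¹) = 1 / 2 by norm_num,
    ← Real.sqrt_eq_rpow, Real.sq_sqrt hA]

lemma integrable_mul2 {a b : E3 → ℝ} (ha : MemLp a 2 volume) (hb : MemLp b 2 volume) :
    Integrable (fun x => a x * b x) := ha.integrable_mul hb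

lemma integrable_inner2 {a b : E3 → E3} (ha : MemLp a 2 volume) (hb : MemLp b 2 volume) :
    Integrable (fun x => inner ℝ (a x) (b x)) := by
  have h := integrable_mul2 ha.norm hb.norm
  apply h.mono' (ha.1.inner hb.1)
  filter_upwards with x
  exact norm_inner_le_norm (a x) (b x)

lemma cs2 {a b : E3 → ℝ} (ha : MemLp a 2 volume) (hb : MemLp b 2 volume) :
    |∫ x, a x * b x| ≤ nn a * nn b := by
  have h1 := eLpNorm_smul_le_mul_eLpNorm (p := 2) (q := 2) (r := 1) (μ := (volume : Measure E3))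
    hb.1 ha.1
  have h2 : |∫ x, a x * b x| ≤ (eLpNorm (a • b) 1 volume).toReal := by
    rw [← Real.norm_eq_abs]
    have h3 : eLpNorm (a • b) 1 volume = ∫⁻ x, ‖a x * b x‖ₑ := by
      rw [eLpNorm_one_eq_lintegral_enorm]; rfl
    rw [h3]
    have h4 := norm_integral_le_lintegral_norm (μ := (volume : Measure E3)) (fun x => a x * b x)
    simp only [ofReal_norm] at h4
    exact h4
  refine h2.trans ?_
  unfold nn
  rw [← ENNReal.toReal_mul]
  exact ENNReal.toReal_mono (ENNReal.mul_ne_top ha.2.ne hb.2.ne) h1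

lemma tendsto_mul2 {a : E3 → ℝ} (ha : MemLp a 2 volume) {f : ℕ → E3 → ℝ} {g : E3 → ℝ}
    (hf : ∀ n, MemLp (f n) 2 volume) (hg : MemLp g 2 volume)
    (h : Tendsto (fun n => eLpNorm (fun x => f n x - g x) 2 volume) atTop (𝓝 0)) :
    Tendsto (fun n => ∫ x, a x * f n x) atTop (𝓝 (∫ x, a x * g x)) := by
  apply tendsto_integral_of_L1 _ (integrable_mul2 ha hg).1
    (Eventually.of_forall fun n => integrable_mul2 ha (hf n))
  have h1 : Tendsto (fun n => eLpNorm a 2 volume * eLpNorm (fun x => f n x - g x) 2 volume) atTop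
      (𝓝 0) := by
    have := ENNReal.Tendsto.const_mul h (Or.inr ha.2.ne)
    simpa using this
  apply tendsto_of_tendsto_of_tendsto_of_le_of_le tendsto_const_nhds h1
  · intro n; exact zero_le
  · intro n
    have h2 := eLpNorm_smul_le_mul_eLpNorm (p := 2) (q := 2) (r := 1) (μ := (volume : Measure E3))
      ((hf n).sub hg).1 ha.1
    refine le_trans (le_of_eq ?_) h2
    rw [eLpNorm_one_eq_lintegral_enorm]
    apply lintegral_congr
    intro x
    congr 1
    simp only [Pi.smul_apply', Pi.sub_apply, smul_eq_mul]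
    ring

lemma tendsto_inner2 {a : E3 → E3} (ha : MemLp a 2 volume) {f : ℕ → E3 → E3} {g : E3 → E3}
    (hf : ∀ n, MemLp (f n) 2 volume) (hg : MemLp g 2 volume)
    (h : Tendsto (fun n => eLpNorm (fun x => f n x - g x) 2 volume) atTop (𝓝 0)) :
    Tendsto (fun n => ∫ x, inner ℝ (a x) (f n x)) atTop (𝓝 (∫ x, inner ℝ (a x) (g x))) := by
  apply tendsto_integral_of_L1 _ (integrable_inner2 ha hg).1
    (Eventually.of_forall fun n => integrable_inner2 ha (hf n))
  have h1 : Tendsto (fun n => eLpNorm a 2 volume * eLpNorm (fun x => f n x - g x) 2 volume) atTop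
      (𝓝 0) := by
    have := ENNReal.Tendsto.const_mul h (Or.inr ha.2.ne)
    simpa using this
  apply tendsto_of_tendsto_of_tendsto_of_le_of_le tendsto_const_nhds h1
  · intro n; exact zero_le
  · intro n
    have h2 := eLpNorm_smul_le_mul_eLpNorm (p := 2) (q := 2) (r := 1) (μ := (volume : Measure E3))
      ((hf n).sub hg).norm.1 ha.norm.1
    have h3 : ∫⁻ x, ‖inner ℝ (a x) (f n x) - inner ℝ (a x) (g x)‖ₑ ≤
        eLpNorm ((fun x => ‖a x‖) • fun x => ‖(f n - g) x‖) 1 volume := by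
      rw [eLpNorm_one_eq_lintegral_enorm]
      apply lintegral_mono
      intro x
      simp only
      rw [← inner_sub_right]
      rw [← ofReal_norm, ← ofReal_norm]
      apply ENNReal.ofReal_le_ofReal
      simp only [Pi.smul_apply', Pi.sub_apply, smul_eq_mul, norm_mul, norm_norm]
      exact norm_inner_le_norm _ _
    refine h3.trans (h2.trans (le_of_eq ?_))
    rw [eLpNorm_norm a, eLpNorm_norm (f n - g)]
    rfl

section facts

variable {Ω : Set E3} {u : E3 → ℝ} {G : E3 → E3}

lemma HP.memLp3 (h : HP Ω u G) (ho : IsOpen Ω) {R : ℝ} (hΩ : ∀ x ∈ Ω, ‖x‖ ≤ R) :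
    MemLp u 3 volume := by
  have hfin : IsFiniteMeasure ((volume : Measure E3).restrict Ω) := by
    constructor
    rw [Measure.restrict_apply_univ]
    have : Ω ⊆ Metric.closedBall 0 R := fun x hx => by simpa using hΩ x hx
    exact (measure_mono this).trans_lt measure_closedBall_lt_top
  have h1 : MemLp u 3 (volume.restrict Ω) :=
    (h.memLp6.restrict Ω).mono_exponent (by norm_num)
  have h2 : MemLp (Ω.indicator u) 3 volume :=
    (memLp_indicator_iff_restrict ho.measurableSet).2 h1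
  apply h2.ae_eq
  filter_upwards [h.zero] with x hx
  by_cases hx' : x ∈ Ω
  · simp [hx']
  · simp [hx', hx hx']

lemma mem_mul_362 {f g : E3 → ℝ} (hf : MemLp f 3 volume) (hg : MemLp g 6 volume) :
    MemLp (fun x => f x * g x) 2 volume := by
  have := hg.smul hf (r := 2) (p := 3) (q := 6)
  exact this

lemma mem_mul_663 {f g : E3 → ℝ} (hf : MemLp f 6 volume) (hg : MemLp g 6 volume) :
    MemLp (fun x => f x * g x) 3 volume := by
  have := hg.smul hf (r := 3) (p := 6) (q := 6)
  exact this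

lemma memLp_sq3 (h6 : MemLp u 6 volume) : MemLp (fun x => u x ^ 2) 3 volume := by
  have := mem_mul_663 h6 h6
  simpa [pow_two] using this

lemma memLp_cube (h6 : MemLp u 6 volume) : MemLp (fun x => u x ^ 3) 2 volume := by
  have := mem_mul_362 (memLp_sq3 h6) h6
  simpa [pow_succ] using this

lemma eLpNorm_mul_362 {f g : E3 → ℝ} (hf : AEStronglyMeasurable f volume)
    (hg : AEStronglyMeasurable g volume) :
    eLpNorm (fun x => f x * g x) 2 volume ≤ eLpNorm f 3 volume * eLpNorm g 6 volume := by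
  have := eLpNorm_smul_le_mul_eLpNorm (p := 3) (q := 6) (r := 2) (μ := (volume : Measure E3))
    (f := g) (φ := f) hg hf
  exact this

/-- The weak equation extends to test pairs in `H¹₀(Ω)`. -/
lemma weak_ext (h : HP Ω u G) (ho : IsOpen Ω) {R : ℝ} (hΩ : ∀ x ∈ Ω, ‖x‖ ≤ R)
    (hweak : ∀ ψ, IsT Ω ψ → ∫ x, (inner ℝ (G x) (gradient ψ x) + u x ^ 4 * ψ x
      - u x ^ 3 * ψ x / ‖x‖) = 0) {v : E3 → ℝ} {H : E3 → E3} (hv : HP Ω v H) :
    (∫ x, inner ℝ (G x) (H x)) + (∫ x, u x ^ 3 * (u x * v x)) -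
      ∫ x, u x ^ 3 * (v x / ‖x‖) = 0 := by
  have h6 := h.memLp6
  have h3 := h.memLp3 ho hΩ
  have hc := memLp_cube h6
  obtain ⟨ψ, hψ, h1, h2⟩ := hv.app
  have hsub : ∀ n, HP Ω (fun x => ψ n x - v x) (fun x => gradient (ψ n) x - H x) := fun n =>
    (hψ n).hp.sub hv
  have t1 := tendsto_inner2 h.mG (fun n => (hψ n).memLp_grad 2) hv.mG h2
  have t2 : Tendsto (fun n => ∫ x, u x ^ 3 * (u x * ψ n x)) atTop
      (𝓝 (∫ x, u x ^ 3 * (u x * v x))) := by
    apply tendsto_mul2 hc (fun n => mem_mul_362 h3 ((hψ n).memLp 6)) (mem_mul_362 h3 hv.memLp6)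
    have e : Tendsto (fun n => eLpNorm u 3 volume * (CS *
        eLpNorm (fun x => gradient (ψ n) x - H x) 2 volume)) atTop (𝓝 0) := by
      have e1 := ENNReal.Tendsto.const_mul h2 (Or.inr CS_ne_top)
      have e2 := ENNReal.Tendsto.const_mul e1 (Or.inr h3.2.ne)
      simpa using e2
    apply tendsto_of_tendsto_of_tendsto_of_le_of_le tendsto_const_nhds e
    · intro n; exact zero_le
    · intro n
      have e3 := eLpNorm_mul_362 h3.1 (hsub n).mu.1
      have e4 : (fun x => u x * ψ n x - u x * v x) = fun x => u x * (ψ n x - v x) := by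
        funext x; ring
      simp only [e4]
      exact e3.trans (by gcongr; exact (hsub n).sobolev)
  have t3 : Tendsto (fun n => ∫ x, u x ^ 3 * (ψ n x / ‖x‖)) atTop
      (𝓝 (∫ x, u x ^ 3 * (v x / ‖x‖))) := by
    apply tendsto_mul2 hc (fun n => (hψ n).hp.memLpH) hv.memLpH
    have e : Tendsto (fun n => ENNReal.ofReal 2 *
        eLpNorm (fun x => gradient (ψ n) x - H x) 2 volume) atTop (𝓝 0) := by
      have e1 := ENNReal.Tendsto.const_mul h2 (Or.inr (ENNReal.ofReal_ne_top (r := 2)))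
      simpa using e1
    apply tendsto_of_tendsto_of_tendsto_of_le_of_le tendsto_const_nhds e
    · intro n; exact zero_le
    · intro n
      have e4 : (fun x => ψ n x / ‖x‖ - v x / ‖x‖) = fun x => (ψ n x - v x) / ‖x‖ := by
        funext x; ring
      simp only [e4]
      exact (hsub n).hardy
  have hz : ∀ n, (∫ x, inner ℝ (G x) (gradient (ψ n) x)) + (∫ x, u x ^ 3 * (u x * ψ n x)) -
      ∫ x, u x ^ 3 * (ψ n x / ‖x‖) = 0 := by
    intro n
    rw [← hweak (ψ n) (hψ n)]
    have i1 := integrable_inner2 h.mG ((hψ n).memLp_grad 2)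
    have i2 := integrable_mul2 hc (mem_mul_362 h3 ((hψ n).memLp 6))
    have i3 := integrable_mul2 hc (hψ n).hp.memLpH
    have i12 : Integrable (fun x => inner ℝ (G x) (gradient (ψ n) x) + u x ^ 3 * (u x * ψ n x)) :=
      i1.add i2
    rw [← integral_add i1 i2, ← integral_sub i12 i3]
    congr 1
    funext x
    ring
  have hlim := (t1.add t2).sub t3
  simp_rw [hz] at hlim
  exact (tendsto_nhds_unique hlim tendsto_const_nhds)

end facts

/-- Truncation bound. -/
lemma trunc_bound {f w : E3 → ℝ} (hf : AEStronglyMeasurable f volume)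
    (hw : AEStronglyMeasurable w volume) {K : ℝ} :
    eLpNorm (fun x => f x * w x) 2 volume ≤ ENNReal.ofReal |K| * eLpNorm w 2 volume +
      eLpNorm ({x | K ≤ ‖f x‖}.indicator f) 3 volume * eLpNorm w 6 volume := by
  have hmeas : NullMeasurableSet {x | K ≤ ‖f x‖} volume :=
    nullMeasurableSet_le aemeasurable_const hf.norm.aemeasurable
  have hi : AEStronglyMeasurable ({x | K ≤ ‖f x‖}.indicator f) volume := hf.indicator₀ hmeas
  have h1 : eLpNorm (fun x => f x * w x) 2 volume ≤
      eLpNorm ((fun x => |K| * ‖w x‖) + fun x => ‖{x | K ≤ ‖f x‖}.indicator f x * w x‖) 2 volume := by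
    apply eLpNorm_mono_ae
    filter_upwards with x
    simp only [Pi.add_apply]
    have h0 : 0 ≤ |K| * ‖w x‖ + ‖{x | K ≤ ‖f x‖}.indicator f x * w x‖ := by positivity
    rw [Real.norm_of_nonneg h0, norm_mul]
    by_cases hx : K ≤ ‖f x‖
    · rw [Set.indicator_of_mem (by exact hx), norm_mul]
      have : 0 ≤ |K| * ‖w x‖ := by positivity
      linarith
    · rw [Set.indicator_of_notMem (by exact hx)]
      simp only [zero_mul, norm_zero, add_zero]
      apply mul_le_mul_of_nonneg_right _ (norm_nonneg _)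
      exact (not_le.1 hx).le.trans (le_abs_self K)
  refine h1.trans ?_
  refine (eLpNorm_add_le (hw.norm.const_mul _) (hi.mul hw).norm (by norm_num)).trans ?_
  apply add_le_add
  · have e : (fun x => |K| * ‖w x‖) = |K| • fun x => ‖w x‖ := rfl
    rw [e, eLpNorm_const_smul, eLpNorm_norm]
    apply le_of_eq
    congr 1
    rw [← ofReal_norm, Real.norm_of_nonneg (abs_nonneg K)]
  · rw [eLpNorm_norm]
    exact eLpNorm_mul_362 hi hw

lemma exists_trunc {f : E3 → ℝ} (hf : MemLp f 3 volume) {δ : ℝ} (hδ : 0 < δ) :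
    ∃ K : ℝ, eLpNorm ({x | K ≤ ‖f x‖}.indicator f) 3 volume ≤ ENNReal.ofReal δ := by
  obtain ⟨g, hg, hfg⟩ := hf.1
  have hgm : MemLp g 3 volume := hf.ae_eq hfg
  obtain ⟨K, hK⟩ := hgm.eLpNorm_indicator_norm_ge_le hg hδ
  refine ⟨K, le_trans (le_of_eq ?_) hK⟩
  apply eLpNorm_congr_ae
  filter_upwards [hfg] with x hx
  simp only [Set.indicator, Set.mem_setOf_eq, hx, coe_nnnorm]

end Pool.Agent.R217.LL
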