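import Pool.Agent.R217.LL.Hardy

set_option autoImplicit false

open MeasureTheory Filter Topology
open scoped ContDiff ENNReal

namespace Pool.Agent.R217.LL

/-- The exponents `(3, 6, 2)`. -/
instance holder362 : ENNReal.HolderTriple 3 6 2 := ⟨by
  have h3 : (3 : ℝ≥0∞)⁻¹ = ENNReal.ofReal (1/3) := by
    rw [ENNReal.ofReal_div_of_pos (by norm_num)]; simp
  have h6 : (6 : ℝ≥0∞)⁻¹ = ENNReal.ofReal (1/6) := by
    rw [ENNReal.ofReal_div_of_pos (by norm_num)]; simp
  have h2 : (2 : ℝ≥0∞)⁻¹ = ENNReal.ofReal (1/2) := by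
    rw [ENNReal.ofReal_div_of_pos (by norm_num)]; simp
  rw [h3, h6, h2, ← ENNReal.ofReal_add (by norm_num) (by norm_num)]
  norm_num⟩

/-- The exponents `(6, 6, 3)`. -/
instance holder663 : ENNReal.HolderTriple 6 6 3 := ⟨by
  have h3 : (3 : ℝ≥0∞)⁻¹ = ENNReal.ofReal (1/3) := by
    rw [ENNReal.ofReal_div_of_pos (by norm_num)]; simp
  have h6 : (6 : ℝ≥0∞)⁻¹ = ENNReal.ofReal (1/6) := by
    rw [ENNReal.ofReal_div_of_pos (by norm_num)]; simp
  rw [h3, h6, ← ENNReal.ofReal_add (by norm_num) (by norm_num)]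
  norm_num⟩

lemma IsT.memLp {Ω : Set E3} {φ : E3 → ℝ} (h : IsT Ω φ) (p : ℝ≥0∞) : MemLp φ p volume :=
  h.1.continuous.memLp_of_hasCompactSupport h.2.1

lemma continuous_gradient {Ω : Set E3} {φ : E3 → ℝ} (h : IsT Ω φ) : Continuous (gradient φ) := by
  have h1 : ContDiff ℝ 1 φ := h.1.of_le (by exact_mod_cast le_top)
  have h2 : Continuous fun x => fderiv ℝ φ x := h1.continuous_fderiv (by norm_num)
  unfold gradient
  exact (LinearIsometryEquiv.continuous _).comp h2

lemma hasCompactSupport_gradient {Ω : Set E3} {φ : E3 → ℝ} (h : IsT Ω φ) :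
    HasCompactSupport (gradient φ) := by
  have h2 : HasCompactSupport fun x => fderiv ℝ φ x := h.2.1.fderiv (𝕜 := ℝ)
  exact h2.comp_left (g := fun L => (InnerProductSpace.toDual ℝ E3).symm L) (by simp)

lemma IsT.memLp_grad {Ω : Set E3} {φ : E3 → ℝ} (h : IsT Ω φ) (p : ℝ≥0∞) :
    MemLp (gradient φ) p volume :=
  (continuous_gradient h).memLp_of_hasCompactSupport (hasCompactSupport_gradient h)

/-- Comparison of `L²` norms from comparison of integrals. -/
lemma eLpNorm_le_of_integral {F G : Type*} [NormedAddCommGroup F] [NormedAddCommGroup G]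
    {f : E3 → F} {g : E3 → G}
    (hf : MemLp f 2 volume) (hg : MemLp g 2 volume) {c : ℝ} (hc : 0 ≤ c)
    (h : ∫ x, ‖f x‖ ^ 2 ≤ c ^ 2 * ∫ x, ‖g x‖ ^ 2) :
    eLpNorm f 2 volume ≤ ENNReal.ofReal c * eLpNorm g 2 volume := by
  rw [hf.eLpNorm_eq_integral_rpow_norm (by norm_num) (by norm_num),
    hg.eLpNorm_eq_integral_rpow_norm (by norm_num) (by norm_num), ← ENNReal.ofReal_mul hc]
  apply ENNReal.ofReal_le_ofReal
  simp only [ENNReal.toReal_ofNat, Real.rpow_ofNat]
  have h1 : ∀ a : ℝ, 0 ≤ a → a ^ (2:ℝ)⁻¹ = Real.sqrt a := by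
    intro a _; rw [Real.sqrt_eq_rpow]; norm_num
  have hA : 0 ≤ ∫ x, ‖f x‖ ^ 2 := integral_nonneg fun x => by positivity
  have hB : 0 ≤ ∫ x, ‖g x‖ ^ 2 := integral_nonneg fun x => by positivity
  rw [h1 _ hA, h1 _ hB]
  calc Real.sqrt (∫ x, ‖f x‖ ^ 2) ≤ Real.sqrt (c ^ 2 * ∫ x, ‖g x‖ ^ 2) := Real.sqrt_le_sqrt h
    _ = c * Real.sqrt (∫ x, ‖g x‖ ^ 2) := by
      rw [Real.sqrt_mul (sq_nonneg c), Real.sqrt_sq hc]

lemma hardy_test_eps {Ω : Set E3} {φ : E3 → ℝ} (h : IsT Ω φ) {ε : ℝ} (hε : 0 < ε) :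
    eLpNorm (fun x => φ x / Real.sqrt (‖x‖ ^ 2 + ε)) 2 volume ≤
      ENNReal.ofReal 2 * eLpNorm (gradient φ) 2 volume := by
  apply eLpNorm_le_of_integral _ (h.memLp_grad 2) (by norm_num)
  · have := hardy_eps h.1 h.2.1 hε
    have e1 : ∀ x : E3, ‖φ x / Real.sqrt (‖x‖ ^ 2 + ε)‖ ^ 2 = φ x ^ 2 / (‖x‖ ^ 2 + ε) := by
      intro x
      rw [norm_div, div_pow, Real.norm_eq_abs, Real.norm_eq_abs, sq_abs, sq_abs,
        Real.sq_sqrt (by positivity)]
    simp_rw [e1]
    norm_num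
    exact this
  · apply Continuous.memLp_of_hasCompactSupport
    · apply h.1.continuous.div
      · fun_prop
      · intro x
        exact (Real.sqrt_pos.2 (by positivity)).ne'
    · simp_rw [div_eq_mul_inv]
      exact h.2.1.mul_right

lemma hardy_test {Ω : Set E3} {φ : E3 → ℝ} (h : IsT Ω φ) :
    eLpNorm (fun x => φ x / ‖x‖) 2 volume ≤
      ENNReal.ofReal 2 * eLpNorm (gradient φ) 2 volume := by
  have h1 : eLpNorm (fun x => φ x / ‖x‖) 2 volume ≤
      liminf (fun n : ℕ => eLpNorm (fun x => φ x / Real.sqrt (‖x‖ ^ 2 + 1 / ((n:ℝ) + 1))) 2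
        volume) atTop := by
    apply Lp.eLpNorm_lim_le_liminf_eLpNorm
    · intro n
      apply AEMeasurable.aestronglyMeasurable
      apply AEMeasurable.div
      · exact h.1.continuous.measurable.aemeasurable
      · have : Continuous fun x : E3 => Real.sqrt (‖x‖ ^ 2 + 1 / ((n:ℝ) + 1)) := by fun_prop
        exact this.measurable.aemeasurable
    · have hne : ∀ᵐ x : E3 ∂volume, x ≠ 0 := by
        rw [ae_iff]
        simp
      filter_upwards [hne] with x hx
      apply Tendsto.div tendsto_const_nhds _ (norm_ne_zero_iff.2 hx)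
      have h2 : Tendsto (fun n : ℕ => Real.sqrt (‖x‖ ^ 2 + 1 / ((n:ℝ) + 1))) atTop
          (𝓝 (Real.sqrt (‖x‖ ^ 2 + 0))) := by
        apply (Real.continuous_sqrt.tendsto _).comp
        exact tendsto_const_nhds.add tendsto_one_div_add_atTop_nhds_zero_nat
      rwa [add_zero, Real.sqrt_sq (norm_nonneg x)] at h2
  refine h1.trans ?_
  apply (liminf_le_liminf (v := fun _ => ENNReal.ofReal 2 * eLpNorm (gradient φ) 2 volume)
    (Eventually.of_forall fun n => hardy_test_eps h (by positivity))).trans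
  simp

/-- The Sobolev constant of Mathlib. -/
noncomputable def CS : ℝ≥0∞ :=
  (SNormLESNormFDerivOfEqConst ℝ (volume : Measure E3) 2 : NNReal)

lemma CS_ne_top : CS ≠ ⊤ := ENNReal.coe_ne_top

lemma sobolev_test {Ω : Set E3} {φ : E3 → ℝ} (h : IsT Ω φ) :
    eLpNorm φ 6 volume ≤ CS * eLpNorm (gradient φ) 2 volume := by
  have h1 : ContDiff ℝ 1 φ := h.1.of_le (by exact_mod_cast le_top)
  have h2 := eLpNorm_le_eLpNorm_fderiv_of_eq (μ := (volume : Measure E3)) (F := ℝ) h1 h.2.1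
    (p := 2) (p' := 6) (by norm_num) (by simp) (by simp; norm_num)
  have h3 : eLpNorm (fderiv ℝ φ) 2 (volume : Measure E3) = eLpNorm (gradient φ) 2 volume :=
    eLpNorm_congr_norm_ae (Eventually.of_forall fun x => (norm_gradient φ x).symm)
  unfold CS
  rw [← h3]
  exact_mod_cast h2

/-- `u ∈ H¹₀(Ω)` with gradient `G`. -/
structure HP (Ω : Set E3) (u : E3 → ℝ) (G : E3 → E3) : Prop where
  mu : MemLp u 2 volume
  mG : MemLp G 2 volume
  app : ∃ φ : ℕ → E3 → ℝ, (∀ n, IsT Ω (φ n)) ∧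
        Tendsto (fun n => eLpNorm (fun x => φ n x - u x) 2 volume) atTop (𝓝 0) ∧
        Tendsto (fun n => eLpNorm (fun x => gradient (φ n) x - G x) 2 volume)
          atTop (𝓝 0)

lemma IsT.sub {Ω : Set E3} {φ ψ : E3 → ℝ} (h : IsT Ω φ) (h' : IsT Ω ψ) :
    IsT Ω (fun x => φ x - ψ x) := by
  refine ⟨h.1.sub h'.1, ?_, ?_⟩
  · exact h.2.1.sub h'.2.1
  · exact (tsupport_sub (f := φ) (g := ψ)).trans (Set.union_subset h.2.2 h'.2.2)

lemma gradient_sub {φ ψ : E3 → ℝ} {x : E3} (h : DifferentiableAt ℝ φ x)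
    (h' : DifferentiableAt ℝ ψ x) :
    gradient (fun x => φ x - ψ x) x = gradient φ x - gradient ψ x := by
  unfold gradient
  rw [fderiv_fun_sub h h', map_sub]

lemma IsT.differentiable {Ω : Set E3} {φ : E3 → ℝ} (h : IsT Ω φ) : Differentiable ℝ φ :=
  h.1.differentiable (by simp)

lemma HP.sub {Ω : Set E3} {u v : E3 → ℝ} {G H : E3 → E3} (h : HP Ω u G) (h' : HP Ω v H) :
    HP Ω (fun x => u x - v x) (fun x => G x - H x) := by
  obtain ⟨φ, hφ, h1, h2⟩ := h.app
  obtain ⟨ψ, hψ, h3, h4⟩ := h'.app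
  refine ⟨h.mu.sub h'.mu, h.mG.sub h'.mG, fun n x => φ n x - ψ n x,
    fun n => (hφ n).sub (hψ n), ?_, ?_⟩
  · have h5 : Tendsto (fun n => eLpNorm (fun x => φ n x - u x) 2 volume +
        eLpNorm (fun x => ψ n x - v x) 2 volume) atTop (𝓝 0) := by
      simpa using h1.add h3
    apply tendsto_of_tendsto_of_tendsto_of_le_of_le tendsto_const_nhds h5
    · intro n; exact zero_le
    · intro n
      have := eLpNorm_sub_le (μ := (volume : Measure E3)) (p := 2)
        (f := fun x => φ n x - u x) (g := fun x => ψ n x - v x)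
        (((hφ n).memLp 2).sub h.mu).1 (((hψ n).memLp 2).sub h'.mu).1 (by norm_num)
      have e : (fun x => φ n x - ψ n x - (u x - v x)) =
          (fun x => φ n x - u x) - (fun x => ψ n x - v x) := by
        funext x; simp only [Pi.sub_apply]; ring
      simp only [e]
      exact this
  · have h5 : Tendsto (fun n => eLpNorm (fun x => gradient (φ n) x - G x) 2 volume +
        eLpNorm (fun x => gradient (ψ n) x - H x) 2 volume) atTop (𝓝 0) := by
      simpa using h2.add h4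
    apply tendsto_of_tendsto_of_tendsto_of_le_of_le tendsto_const_nhds h5
    · intro n; exact zero_le
    · intro n
      have := eLpNorm_sub_le (μ := (volume : Measure E3)) (p := 2)
        (f := fun x => gradient (φ n) x - G x) (g := fun x => gradient (ψ n) x - H x)
        (((hφ n).memLp_grad 2).sub h.mG).1 (((hψ n).memLp_grad 2).sub h'.mG).1 (by norm_num)
      have e : (fun x => gradient (fun x => φ n x - ψ n x) x - (G x - H x)) =
          (fun x => gradient (φ n) x - G x) - (fun x => gradient (ψ n) x - H x) := by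
        funext x
        rw [gradient_sub ((hφ n).differentiable x) ((hψ n).differentiable x)]
        simp only [Pi.sub_apply]
        abel
      simp only [e]
      exact this

lemma IsT.hp {Ω : Set E3} {φ : E3 → ℝ} (h : IsT Ω φ) : HP Ω φ (gradient φ) :=
  ⟨h.memLp 2, h.memLp_grad 2, fun _ => φ, fun _ => h, by simp, by simp⟩

/-- Transfer of an inequality from test functions to `H¹₀(Ω)`. -/
lemma HP.bound {Ω : Set E3} {u : E3 → ℝ} {G : E3 → E3} (h : HP Ω u G)
    {m : E3 → ℝ} (hm : Measurable m) {q C : ℝ≥0∞} (hC : C ≠ ⊤)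
    (hb : ∀ φ, IsT Ω φ → eLpNorm (fun x => φ x * m x) q volume ≤
      C * eLpNorm (gradient φ) 2 volume) :
    eLpNorm (fun x => u x * m x) q volume ≤ C * eLpNorm G 2 volume := by
  obtain ⟨φ, hφ, h1, h2⟩ := h.app
  have hT : TendstoInMeasure volume φ atTop u := by
    apply tendstoInMeasure_of_tendsto_eLpNorm (p := 2) (by norm_num)
    · intro n; exact ((hφ n).memLp 2).1
    · exact h.mu.1
    · exact h1
  obtain ⟨ns, hns, hae⟩ := hT.exists_seq_tendsto_ae
  have h3 : eLpNorm (fun x => u x * m x) q volume ≤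
      liminf (fun k => eLpNorm (fun x => φ (ns k) x * m x) q volume) atTop := by
    apply Lp.eLpNorm_lim_le_liminf_eLpNorm
    · intro k
      exact (((hφ (ns k)).1.continuous.measurable).mul hm).aestronglyMeasurable
    · filter_upwards [hae] with x hx
      exact hx.mul_const _
  refine h3.trans ?_
  have h4 : Tendsto (fun k => C * (eLpNorm (fun x => gradient (φ (ns k)) x - G x) 2 volume +
      eLpNorm G 2 volume)) atTop (𝓝 (C * (0 + eLpNorm G 2 volume))) := by
    apply ENNReal.Tendsto.const_mul _ (Or.inr hC)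
    exact (h2.comp hns.tendsto_atTop).add tendsto_const_nhds
  rw [zero_add] at h4
  rw [← h4.liminf_eq]
  refine liminf_le_liminf (Eventually.of_forall fun k => ?_)
  refine (hb _ (hφ (ns k))).trans ?_
  gcongr
  have := eLpNorm_add_le (μ := (volume : Measure E3)) (p := 2)
    (f := fun x => gradient (φ (ns k)) x - G x) (g := G)
    (((hφ (ns k)).memLp_grad 2).sub h.mG).1 h.mG.1 (by norm_num)
  have e : gradient (φ (ns k)) = (fun x => gradient (φ (ns k)) x - G x) + G := by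
    funext x
    simp only [Pi.add_apply, sub_add_cancel]
  exact (congrArg (fun f => eLpNorm f 2 volume) e).trans_le this

lemma HP.hardy {Ω : Set E3} {u : E3 → ℝ} {G : E3 → E3} (h : HP Ω u G) :
    eLpNorm (fun x => u x / ‖x‖) 2 volume ≤ ENNReal.ofReal 2 * eLpNorm G 2 volume := by
  have := h.bound (m := fun x => ‖x‖⁻¹) (q := 2) (measurable_norm.inv) (C := ENNReal.ofReal 2)
    ENNReal.ofReal_ne_top (fun φ hφ => by simpa [div_eq_mul_inv] using hardy_test hφ)
  simpa [div_eq_mul_inv] using this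

lemma HP.sobolev {Ω : Set E3} {u : E3 → ℝ} {G : E3 → E3} (h : HP Ω u G) :
    eLpNorm u 6 volume ≤ CS * eLpNorm G 2 volume := by
  have := h.bound (m := fun _ => 1) (q := 6) measurable_const (C := CS)
    CS_ne_top (fun φ hφ => by simpa using sobolev_test hφ)
  simpa using this

lemma HP.memLp6 {Ω : Set E3} {u : E3 → ℝ} {G : E3 → E3} (h : HP Ω u G) : MemLp u 6 volume :=
  ⟨h.mu.1, h.sobolev.trans_lt (ENNReal.mul_lt_top CS_ne_top.lt_top h.mG.2)⟩

lemma HP.memLpH {Ω : Set E3} {u : E3 → ℝ} {G : E3 → E3} (h : HP Ω u G) :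
    MemLp (fun x => u x / ‖x‖) 2 volume :=
  ⟨(h.mu.1.aemeasurable.div measurable_norm.aemeasurable).aestronglyMeasurable,
    h.hardy.trans_lt (ENNReal.mul_lt_top ENNReal.ofReal_lt_top h.mG.2)⟩

/-- Elements of `H¹₀(Ω)` vanish outside `Ω`. -/
lemma HP.zero {Ω : Set E3} {u : E3 → ℝ} {G : E3 → E3} (h : HP Ω u G) :
    ∀ᵐ x ∂volume, x ∉ Ω → u x = 0 := by
  obtain ⟨φ, hφ, h1, h2⟩ := h.app
  have hT : TendstoInMeasure volume φ atTop u := by
    apply tendstoInMeasure_of_tendsto_eLpNorm (p := 2) (by norm_num)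
    · intro n; exact ((hφ n).memLp 2).1
    · exact h.mu.1
    · exact h1
  obtain ⟨ns, hns, hae⟩ := hT.exists_seq_tendsto_ae
  filter_upwards [hae] with x hx hxΩ
  have h0 : ∀ k, φ (ns k) x = 0 := by
    intro k
    apply image_eq_zero_of_notMem_tsupport
    intro h'
    exact hxΩ ((hφ (ns k)).2.2 h')
  simp_rw [h0] at hx
  exact tendsto_nhds_unique hx tendsto_const_nhds

end Pool.Agent.R217.LL
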